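import Pool.Agent.H393R2.DE.Single

/-! The single prime theorem for a sequence of near multiples of a quadratic irrational. -/

set_option autoImplicit false

namespace H393R2.DE

open Finset
open Pool.Agent.H393R2.DC (UU mem_UU compl_card dlt sg bad bad2 Dn dil conv sg_step)

/-- the coefficients mod `q` -/
noncomputable def cf (b : ℕ) (U : ℕ → ℤ) (q : ℕ) (i : ℕ) : ZMod q :=
  ((dlt b U i : ℤ) : ZMod q) * ((b : ZMod q)⁻¹) ^ i

theorem sg_eq_sum (b : ℕ) (U : ℕ → ℤ) (q : ℕ) [Fact q.Prime] (hb : (b : ZMod q) ≠ 0) (R : ℕ) :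
    sg b U q R = ∑ i ∈ range (R + 1), cf b U q i := by
  induction R with
  | zero => simp [sg, cf, dlt]
  | succ R ih =>
    rw [Finset.sum_range_succ, ← ih]
    unfold sg cf
    simp only [dlt]
    push_cast
    rw [pow_succ]
    field_simp
    ring

theorem cum_eq_sg (b : ℕ) (U : ℕ → ℤ) (q N : ℕ) [Fact q.Prime] (hb : (b : ZMod q) ≠ 0) {R : ℕ}
    (hR : R ≤ N) : cum (insert 0 (Dn b U N)) (cf b U q) (R : ℤ) = sg b U q R := by
  classical
  rw [sg_eq_sum b U q hb]
  unfold cum
  apply Finset.sum_subset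
  · intro i hi
    rw [Finset.mem_filter] at hi
    rw [Finset.mem_range]
    omega
  · intro i hi hnot
    rw [Finset.mem_range] at hi
    have : i ∉ insert 0 (Dn b U N) := fun h => hnot (Finset.mem_filter.2 ⟨h, by omega⟩)
    have h2 : i ∉ Dn b U N := fun h => this (Finset.mem_insert_of_mem h)
    have h3 : dlt b U i = 0 := by
      by_contra h
      exact h2 (Finset.mem_filter.2 ⟨Finset.mem_range.2 (by omega), h⟩)
    simp [cf, h3]

theorem single_prime (b G : ℕ) (U : ℕ → ℤ) (q N K P e Zl m : ℕ) [Fact q.Prime] (hq : 3 ≤ q)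
    (hb : (b : ZMod q) ≠ 0) (hG : (G : ZMod q) ^ (q / 2) = -1)
    (hbad : (bad b G U q N).card ≤ e) (hbad2 : (bad2 b G U N).card ≤ e)
    (hm : (Dn b U N).card + 1 ≤ m) (hP : 10 ^ 4 * m ^ 3 * q ^ 3 ≤ q ^ P)
    (hsz : 10 ^ 6 * (e + 1) ^ 2 * m ^ 6 * q ^ (4 * K + 10 * P) * (Zl + 1) ≤ N) :
    ∃ (A : Finset ℕ) (δ : ℕ → ℕ → ℕ), (∀ u ∈ A, Zl ≤ u) ∧
      (∀ u ∈ A, ∀ k ≤ K, δ u k ∈ Dn b U N ∧ u < q ^ k * δ u k ∧
        q ^ k * δ u k ≤ u + (e * q ^ (K + 2 * P) + 1)) ∧
      (∀ u ∈ A, ∀ u' ∈ A, ∀ k ≤ K, ∀ k' ≤ K, δ u k = δ u' k' → u = u' ∧ k = k') ∧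
      K ≤ 8 * P * (P * A.card) + 8 := by
  classical
  have hq2 : 2 ≤ q := by omega
  have hqpos : 0 < q := by omega
  have hm1 : 1 ≤ m := by omega
  have h2 : (2 : ZMod q) ≠ 0 := by
    intro h
    have h3 : ((2 : ℕ) : ZMod q) = 0 := by exact_mod_cast h
    rw [ZMod.natCast_eq_zero_iff] at h3
    have := Nat.le_of_dvd (by norm_num) h3
    omega
  have hG0 : (G : ZMod q) ≠ 0 := by
    intro h
    rw [h, zero_pow (by omega)] at hG
    have : (1 : ZMod q) = 0 := by linear_combination hG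
    exact one_ne_zero this
  -- `P ≥ 4`
  have hm3 : 1 ≤ m ^ 3 := Nat.one_le_pow _ _ hm1
  have hP4 : 4 ≤ P := by
    by_contra hcon
    push Not at hcon
    have h1 : q ^ P ≤ q ^ 3 := Nat.pow_le_pow_right hqpos (by omega)
    have h3 : 10 ^ 4 * 1 * q ^ 3 ≤ 10 ^ 4 * m ^ 3 * q ^ 3 := by
      apply Nat.mul_le_mul_right
      exact Nat.mul_le_mul_left _ hm3
    have h4 : 0 < q ^ 3 := by positivity
    omega
  set E := bad b G U q N with hE
  set E2 := bad2 b G U N with hE2
  set D := insert 0 (Dn b U N) with hD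
  set c := cf b U q with hc
  have h0 : 0 ∈ D := Finset.mem_insert_self _ _
  have hDc : D.card ≤ m := (Finset.card_insert_le _ _).trans hm
  have hDn : ∀ d ∈ D, 0 < d → d ∈ Dn b U N := by
    intro d hd hd0
    rcases Finset.mem_insert.1 hd with h | h
    · omega
    · exact h
  have hdil : ∀ R ≤ N, R ∉ E → cum D c ((R / q : ℕ) : ℤ) = - cum D c (R : ℤ) := by
    intro R hR hRE
    rw [cum_eq_sg b U q N hb hR, cum_eq_sg b U q N hb ((Nat.div_le_self _ _).trans hR),
      ← dil b G U q hb N R hR hRE, hG]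
    ring
  have hconv : ∀ R ≤ N, R ∉ E2 → ∑ i ∈ D, c i * cum D c ((R : ℤ) - i) = (G : ZMod q) := by
    intro R hR hRE
    rw [← conv b G U q hb N R hR hRE]
    have e1 : ∀ i ∈ range (R + 1), ((dlt b U i : ℤ) : ZMod q) * ((b : ZMod q)⁻¹) ^ i *
        sg b U q (R - i) = c i * cum D c ((R : ℤ) - i) := by
      intro i hi
      rw [Finset.mem_range] at hi
      rw [← cum_eq_sg b U q N hb (show R - i ≤ N by omega)]
      rw [show (((R - i : ℕ)) : ℤ) = (R : ℤ) - i by omega]
      rfl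
    rw [Finset.sum_congr rfl e1]
    -- both sums are over the union
    have key : ∀ i : ℕ, (i ∉ D ∨ R < i) → i ∈ D ∪ range (R + 1) →
        c i * cum D c ((R : ℤ) - i) = 0 := by
      intro i h _
      rcases h with h | h
      · by_cases hiR : R < i
        · have : cum D c ((R : ℤ) - i) = 0 := by
            unfold cum
            rw [Finset.filter_false_of_mem, Finset.sum_empty]
            intro j _
            omega
          rw [this, mul_zero]
        · have h2 : i ∉ Dn b U N := fun h' => h (Finset.mem_insert_of_mem h')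
          have h3 : dlt b U i = 0 := by
            by_contra h4
            exact h2 (Finset.mem_filter.2 ⟨Finset.mem_range.2 (by omega), h4⟩)
          simp [hc, cf, h3]
      · have : cum D c ((R : ℤ) - i) = 0 := by
          unfold cum
          rw [Finset.filter_false_of_mem, Finset.sum_empty]
          intro j _
          omega
        rw [this, mul_zero]
    have s1 : ∑ i ∈ D, c i * cum D c ((R : ℤ) - i) =
        ∑ i ∈ D ∪ range (R + 1), c i * cum D c ((R : ℤ) - i) := by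
      apply Finset.sum_subset Finset.subset_union_left
      intro i hi hnot
      exact key i (Or.inl hnot) hi
    have s2 : ∑ i ∈ range (R + 1), c i * cum D c ((R : ℤ) - i) =
        ∑ i ∈ D ∪ range (R + 1), c i * cum D c ((R : ℤ) - i) := by
      apply Finset.sum_subset Finset.subset_union_right
      intro i hi hnot
      rw [Finset.mem_range] at hnot
      exact key i (Or.inr (by omega)) hi
    rw [s1, s2]
  -- parameters
  set K2 := K + 2 with hK2
  set H := e * q ^ (K2 + P) + 1 with hH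
  set L := D.card * D.card * (2 * H + 1) + E2.card with hL
  set Sm := 2 * dia D H + 2 * H + L + 2 with hSm
  set R0 := q ^ (K + 1) * (2 * Sm) with hR0
  set Z0 := R0 + 600 * q ^ 3 * m * R0 + q ^ P * Zl with hZ0
  have hH1 : 1 ≤ H := by omega
  have hEH : E.card * q ^ (K2 + P) ≤ H := by
    have := Nat.mul_le_mul_right (q ^ (K2 + P)) hbad
    omega
  have hEH2 : E.card * q ^ K2 ≤ H := by
    refine le_trans (Nat.mul_le_mul_left _ ?_) hEH
    exact Nat.pow_le_pow_right hqpos (by omega)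
  have heH : e ≤ H := by
    have : e * 1 ≤ e * q ^ (K2 + P) := Nat.mul_le_mul_left _ (Nat.one_le_pow _ _ hqpos)
    omega
  have hmm : m ≤ m ^ 2 := Nat.le_self_pow (by norm_num) m
  have hm2 : 1 ≤ m ^ 2 := Nat.one_le_pow _ _ hm1
  have hdia : dia D H ≤ 3 * (m ^ 2 * H) := by
    unfold dia
    calc D.card * (2 * H + 1) ≤ m ^ 2 * (3 * H) := Nat.mul_le_mul (hDc.trans hmm) (by omega)
      _ = 3 * (m ^ 2 * H) := by ring
  have hHm : H ≤ m ^ 2 * H := Nat.le_mul_of_pos_left _ hm2
  have hDD : D.card * D.card ≤ m ^ 2 := by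
    rw [pow_two]; exact Nat.mul_le_mul hDc hDc
  have hLm : L ≤ 4 * (m ^ 2 * H) := by
    have h1 : D.card * D.card * (2 * H + 1) ≤ 3 * (m ^ 2 * H) := by
      calc D.card * D.card * (2 * H + 1) ≤ m ^ 2 * (3 * H) := Nat.mul_le_mul hDD (by omega)
        _ = 3 * (m ^ 2 * H) := by ring
    omega
  have hSmm : Sm ≤ 14 * (m ^ 2 * H) := by omega
  have hSm1 : 1 ≤ Sm := by omega
  have hHSm : H ≤ Sm := by omega
  have hqK : 1 ≤ q ^ (K + 1) := Nat.one_le_pow _ _ hqpos
  have hSmR : 2 * Sm ≤ R0 := Nat.le_mul_of_pos_left _ hqK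
  have hR0m : R0 ≤ 28 * (q ^ (K + 1) * (m ^ 2 * H)) := by
    calc R0 ≤ q ^ (K + 1) * (2 * (14 * (m ^ 2 * H))) := by
          rw [hR0]
          exact Nat.mul_le_mul_left _ (Nat.mul_le_mul_left _ hSmm)
      _ = _ := by ring
  have hR0Z : R0 ≤ Z0 := by omega
  -- size bound
  have hHbound : H ≤ (e + 1) * q ^ (K2 + P) := by
    rw [hH]
    have : (e + 1) * q ^ (K2 + P) = e * q ^ (K2 + P) + q ^ (K2 + P) := by ring
    have h1 : 1 ≤ q ^ (K2 + P) := Nat.one_le_pow _ _ hqpos
    omega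
  set X : ℕ := D.card * D.card * (2 * R0 + 1) + (E2.card + D.card * Z0) with hX
  have hR01 : 1 ≤ R0 := by omega
  have hXbound : X ≤ 606 * (q ^ 3 * (m ^ 2 * R0)) + m * (q ^ P * Zl) := by
    have h1 : D.card * D.card * (2 * R0 + 1) ≤ 3 * (m ^ 2 * R0) := by
      calc D.card * D.card * (2 * R0 + 1) ≤ m ^ 2 * (3 * R0) := Nat.mul_le_mul hDD (by omega)
        _ = 3 * (m ^ 2 * R0) := by ring
    have h3 : E2.card ≤ m ^ 2 * R0 := by
      have : e ≤ R0 := by omega
      have h4 : R0 ≤ m ^ 2 * R0 := Nat.le_mul_of_pos_left _ hm2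
      omega
    have h4 : D.card * Z0 ≤ m * Z0 := Nat.mul_le_mul_right _ hDc
    have h5 : m * Z0 = m * R0 + 600 * (q ^ 3 * (m ^ 2 * R0)) + m * (q ^ P * Zl) := by
      rw [hZ0]; ring
    have h6 : m * R0 ≤ m ^ 2 * R0 := Nat.mul_le_mul_right _ hmm
    have h7 : m ^ 2 * R0 ≤ q ^ 3 * (m ^ 2 * R0) := Nat.le_mul_of_pos_left _ (by positivity)
    omega
  have hXN : 4 * X ≤ N := by
    refine le_trans ?_ hsz
    have hR0' : q ^ 3 * (m ^ 2 * R0) ≤ 28 * ((e + 1) ^ 2 * m ^ 6 * q ^ (4 * K + 10 * P)) := by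
      calc q ^ 3 * (m ^ 2 * R0) ≤ q ^ 3 * (m ^ 2 * (28 * (q ^ (K + 1) * (m ^ 2 * H)))) := by
            apply Nat.mul_le_mul_left; apply Nat.mul_le_mul_left; exact hR0m
        _ ≤ q ^ 3 * (m ^ 2 * (28 * (q ^ (K + 1) * (m ^ 2 * ((e + 1) * q ^ (K2 + P)))))) := by
            apply Nat.mul_le_mul_left; apply Nat.mul_le_mul_left
            apply Nat.mul_le_mul_left; apply Nat.mul_le_mul_left
            apply Nat.mul_le_mul_left; exact hHbound
        _ = 28 * ((e + 1) * m ^ 4 * q ^ (3 + (K + 1) + (K2 + P))) := by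
            rw [pow_add q (3 + (K + 1)), pow_add q 3]; ring
        _ ≤ 28 * ((e + 1) ^ 2 * m ^ 6 * q ^ (4 * K + 10 * P)) := by
            apply Nat.mul_le_mul_left
            apply Nat.mul_le_mul
            · apply Nat.mul_le_mul
              · exact Nat.le_self_pow (by norm_num) _
              · exact Nat.pow_le_pow_right hm1 (by norm_num)
            · exact Nat.pow_le_pow_right hqpos (by omega)
    have hZl' : m * (q ^ P * Zl) ≤ (e + 1) ^ 2 * m ^ 6 * q ^ (4 * K + 10 * P) * Zl := by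
      calc m * (q ^ P * Zl) = (1 * m * q ^ P) * Zl := by ring
        _ ≤ ((e + 1) ^ 2 * m ^ 6 * q ^ (4 * K + 10 * P)) * Zl := by
            apply Nat.mul_le_mul_right
            apply Nat.mul_le_mul
            · apply Nat.mul_le_mul
              · exact Nat.one_le_pow _ _ (by omega)
              · exact Nat.le_self_pow (by norm_num) _
            · exact Nat.pow_le_pow_right hqpos (by omega)
    set W := (e + 1) ^ 2 * m ^ 6 * q ^ (4 * K + 10 * P) with hW
    have e1 : 10 ^ 6 * (e + 1) ^ 2 * m ^ 6 * q ^ (4 * K + 10 * P) * (Zl + 1) =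
        1000000 * (W * Zl) + 1000000 * W := by rw [hW]; ring
    rw [e1]
    have e2 : W * Zl = W * Zl := rfl
    omega
  -- the top of the range
  obtain ⟨w, hw, hwZ, hwX, σ, hσ, hR⟩ := top_exists (D := D) (c := c) (q := q) (N := N) (E := E)
    (K1 := K2 + P) (E2 := E2) (G := (G : ZMod q)) hq2 hG0 hconv (R0 := R0) (Z0 := Z0)
    (by omega) hR0Z (by omega)
  have hwbig : 600 * q ^ 3 * m * R0 + q ^ P * Zl ≤ w := by omega
  have hwN : 2 * w ≤ N := by omega
  -- the jumps
  set J := Jmp (UU q K2 E N) (fun x : ℕ => cum D c (x : ℤ)) (w / q ^ P) w with hJ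
  have hJm : J.card + 1 ≤ m := (jumps_card w P h0).trans hDc
  have hq3 : q ^ 2 ≤ q ^ 3 := Nat.pow_le_pow_right hqpos (by norm_num)
  have hcore := single_core (D := D) (H := H) (c := c) (q := q) (K2 := K2) (N := N) (E := E)
    h2 hq h0 hEH2 hdil hconv (w := w) (R0 := R0) (Sm := Sm) (K := K) (P := P) (L := L) hσ
    (by omega) hP4 (fun x _ h1 h3 => hR x h1 h3) hL (by omega) (by omega)
    (by
      refine le_trans ?_ (le_trans (Nat.le_add_right _ _) hwbig)
      calc 100 * q ^ 3 * R0 = 100 * q ^ 3 * 1 * R0 := by ring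
        _ ≤ 600 * q ^ 3 * m * R0 := by
          apply Nat.mul_le_mul_right
          apply Nat.mul_le_mul _ hm1
          apply Nat.mul_le_mul_right
          norm_num) hwN
    (by
      calc 6 * Sm ≤ 6 * (14 * (m ^ 2 * H)) := Nat.mul_le_mul_left _ hSmm
        _ = (84 * m ^ 2 * 1) * H := by ring
        _ ≤ (10 ^ 4 * m ^ 3 * q ^ 3) * H := by
            apply Nat.mul_le_mul_right
            apply Nat.mul_le_mul
            · apply Nat.mul_le_mul (by norm_num)
              exact Nat.pow_le_pow_right hm1 (by norm_num)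
            · exact Nat.one_le_pow _ _ hqpos
        _ ≤ q ^ P * H := Nat.mul_le_mul_right _ hP)
    J hJ
    (by
      refine le_trans ?_ (le_trans (Nat.le_add_right _ _) hwbig)
      apply Nat.mul_le_mul_right
      apply Nat.mul_le_mul _ hJm
      apply Nat.mul_le_mul_left
      exact hq3)
    (by
      refine le_trans ?_ hP
      calc 100 * q ^ 3 * (J.card + 1) ≤ 100 * q ^ 3 * m := Nat.mul_le_mul_left _ hJm
        _ = 100 * m * q ^ 3 := by ring
        _ ≤ 10 ^ 4 * m ^ 3 * q ^ 3 := by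
            apply Nat.mul_le_mul_right
            apply Nat.mul_le_mul (by norm_num)
            exact Nat.le_self_pow (by norm_num) m)
  have hXR : R0 + 1 ≤ X := by
    have h1 : 1 ≤ D.card := Finset.card_pos.2 ⟨0, h0⟩
    have h3 : 2 * R0 + 1 ≤ D.card * D.card * (2 * R0 + 1) :=
      Nat.le_mul_of_pos_left _ (Nat.mul_pos h1 h1)
    omega
  -- the chains
  obtain ⟨A, δ, hA1, hA2, hA3, hA4⟩ := chains (D := D) (c := c) (q := q) (K2 := K2) (N := N)
    (E := E) hq2 hdil (w := w) (P := P) (by omega) hw (by omega) J hJ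
  refine ⟨A, δ, ?_, ?_, ?_, ?_⟩
  · intro u hu
    refine le_trans ?_ (hA1 u hu)
    rw [Nat.le_div_iff_mul_le (by positivity)]
    calc Zl * q ^ P = q ^ P * Zl := mul_comm _ _
      _ ≤ w := by omega
  · intro u hu k hk
    obtain ⟨a1, a2, a3, a4⟩ := hA2 u hu k (by omega)
    refine ⟨hDn _ a1 a2, a3, a4.trans ?_⟩
    have h1 : E.card * q ^ K2 ≤ e * q ^ (K + 2 * P) :=
      Nat.mul_le_mul hbad (Nat.pow_le_pow_right hqpos (by omega))
    omega
  · intro u hu u' hu' k hk k' hk' h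
    exact hA3 u hu u' hu' k (by omega) k' (by omega) h
  · have h1 : P * J.card ≤ P * (P * A.card) := Nat.mul_le_mul_left _ hA4
    have h3 : 8 * P * (P * A.card) = 8 * (P * (P * A.card)) := by ring
    omega

end H393R2.DE
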