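import Pool.Agent.H393R2.DE.Lev
import Pool.Agent.H393R2.DE.Lac

/-! Isolated levels, and the classification of the competing pairs. -/

set_option autoImplicit false

namespace H393R2.DE

open Finset
open Pool.Agent.H393R2.DC (UU mem_UU compl_card)

variable {F : Type*} [CommRing F]

variable {D : Finset ℕ} {H : ℕ} {c : ℕ → F} {q K2 N : ℕ} {E : Finset ℕ}

/-- number of levels where the first live position is not isolated -/
theorem iso_count (hq : 3 ≤ q) (h0 : 0 ∈ D) (hBH : E.card * q ^ K2 ≤ H)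
    (hdil : ∀ R ≤ N, R ∉ E → cum D c ((R / q : ℕ) : ℤ) = - cum D c (R : ℤ))
    {w R0 z Sm K P : ℕ} (hK : K + 1 ≤ K2) (hP : 4 ≤ P) (hwN : w ≤ N)
    (hz : w / q ^ 2 ≤ z) (hSm : 2 * dia D H + 2 * H + 1 ≤ Sm) (hR0 : q ^ (K + 1) * Sm ≤ R0)
    (hRw : 100 * q ^ 3 * R0 ≤ w) (hPH : 6 * Sm ≤ q ^ P * H)
    (t : ℕ → ℕ) (ht : ∀ k, 1 ≤ k → k ≤ K → t k ∈ D ∧ wt D H c (cl D H (t k)) ≠ 0 ∧
      z ≤ q ^ k * (t k - (dia D H + H)) ∧ q ^ k * t k ≤ w + R0)
    (S : Finset ℕ) (hS : ∀ k ∈ S, 1 ≤ k ∧ k ≤ K ∧ ∃ j ∈ D, wt D H c (cl D H j) ≠ 0 ∧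
      cl D H j ≠ cl D H (t k) ∧ j ≤ t k + Sm ∧ t k ≤ j + Sm) :
    S.card ≤ P * (Jmp (UU q K2 E N) (fun x : ℕ => cum D c (x : ℤ)) (w / q ^ P) w).card := by
  classical
  set J := Jmp (UU q K2 E N) (fun x : ℕ => cum D c (x : ℤ)) (w / q ^ P) w with hJ
  have hq2 : 2 ≤ q := by omega
  have hex : ∀ k ∈ S, ∃ u v : ℕ, u ∈ J ∧ v ∈ J ∧ u + q ^ (k - 1) * H ≤ v ∧
      v ≤ u + q ^ (k - 1) * (2 * Sm) ∧ u < v := by
    intro k hkS
    obtain ⟨hk1, hkK, j, hj, hjw, hjne, hjt, htj⟩ := hS k hkS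
    obtain ⟨htD, htw, htz, htu⟩ := ht k hk1 hkK
    -- abbreviations
    obtain ⟨κ, rfl⟩ : ∃ κ, k = κ + 1 := ⟨k - 1, by omega⟩
    simp only [Nat.add_sub_cancel]
    set X := q ^ κ with hX
    have hX1 : 1 ≤ X := Nat.one_le_pow _ _ (by omega)
    have hqX : q ^ (κ + 1) = q * X := by rw [hX, pow_succ']
    rw [hqX] at htz htu
    have hXR : q * X * Sm ≤ R0 := by
      refine le_trans ?_ hR0
      rw [← hqX]
      exact Nat.mul_le_mul_right _ (Nat.pow_le_pow_right (by omega) (by omega))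
    have hwz : w < q ^ 2 * (z + 1) := by
      have h1 : w < q ^ 2 * (w / q ^ 2 + 1) := Nat.lt_mul_div_succ w (by positivity)
      have h2 : q ^ 2 * (w / q ^ 2 + 1) ≤ q ^ 2 * (z + 1) := Nat.mul_le_mul_left _ (by omega)
      omega
    have hR01 : 1 ≤ R0 := by
      have h1 : 1 ≤ q ^ (K + 1) * Sm := Nat.mul_pos (by positivity) (by omega)
      omega
    set r := dia D H + H with hr
    set T := t (κ + 1) with hT
    -- `T ≥ r + 2 Sm`
    have hTbig : r + 2 * Sm ≤ T := by
      by_contra hcon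
      push Not at hcon
      have h1 : q * X * (T - r) ≤ q * X * (2 * Sm) := Nat.mul_le_mul_left _ (by omega)
      have h2 : q * X * (2 * Sm) = 2 * (q * X * Sm) := by ring
      have h3 : z ≤ 2 * R0 := by omega
      have h4 : q ^ 2 * (z + 1) ≤ q ^ 2 * (3 * R0) := Nat.mul_le_mul_left _ (by omega)
      have h5 : q ^ 2 * (3 * R0) ≤ 100 * q ^ 3 * R0 := by
        have : 100 * q ^ 3 * R0 = q ^ 2 * (100 * q * R0) := by ring
        rw [this]
        apply Nat.mul_le_mul_left
        apply Nat.mul_le_mul_right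
        omega
      omega
    -- lower bound
    have hlow : ∀ a : ℕ, T ≤ a + Sm → w / q ^ P ≤ X * (a - r) := by
      intro a ha
      have e1 : T - r ≤ (a - r) + Sm := by omega
      have e2 : q * X * (T - r) ≤ q * X * ((a - r) + Sm) := Nat.mul_le_mul_left _ e1
      have e3 : z ≤ q * (X * (a - r)) + R0 := by
        have : q * X * ((a - r) + Sm) = q * (X * (a - r)) + q * X * Sm := by ring
        omega
      set Y := X * (a - r) with hY
      have e4 : w ≤ q ^ 4 * Y := by
        have f1 : w < q ^ 2 * (q * Y + R0 + 1) :=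
          lt_of_lt_of_le hwz (Nat.mul_le_mul_left _ (by omega))
        have f2 : q ^ 2 * (q * Y + R0 + 1) ≤ q ^ 3 * Y + 2 * (q ^ 2 * R0) := by
          have : q ^ 2 * (q * Y + R0 + 1) = q ^ 3 * Y + q ^ 2 * R0 + q ^ 2 := by ring
          rw [this]
          have : q ^ 2 ≤ q ^ 2 * R0 := Nat.le_mul_of_pos_right _ hR01
          omega
        have f3 : 2 * (q ^ 2 * R0) * 2 ≤ w := by
          refine le_trans ?_ hRw
          have : 100 * q ^ 3 * R0 = 100 * q * (q ^ 2 * R0) := by ring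
          rw [this]
          have : 2 * (q ^ 2 * R0) * 2 = 4 * (q ^ 2 * R0) := by ring
          rw [this]
          apply Nat.mul_le_mul_right
          omega
        have f4 : w ≤ 2 * (q ^ 3 * Y) := by omega
        calc w ≤ 2 * (q ^ 3 * Y) := f4
          _ ≤ q * (q ^ 3 * Y) := Nat.mul_le_mul_right _ hq2
          _ = q ^ 4 * Y := by ring
      calc w / q ^ P ≤ w / q ^ 4 :=
            Nat.div_le_div_left (Nat.pow_le_pow_right (by omega) hP) (by positivity)
        _ ≤ (q ^ 4 * Y) / q ^ 4 := Nat.div_le_div_right e4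
        _ = Y := Nat.mul_div_cancel_left _ (by positivity)
    -- upper bound
    have hupp : ∀ b : ℕ, b ≤ T + Sm → X * (b + dia D H + 1) ≤ w := by
      intro b hb
      have e1 : q * (X * (b + dia D H + 1)) ≤ q * w := by
        calc q * (X * (b + dia D H + 1)) = q * X * (b + dia D H + 1) := by ring
          _ ≤ q * X * (T + 2 * Sm) := Nat.mul_le_mul_left _ (by omega)
          _ = q * X * T + 2 * (q * X * Sm) := by ring
          _ ≤ (w + R0) + 2 * R0 := by omega
          _ ≤ 2 * w := by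
              have : 3 * R0 ≤ 100 * q ^ 3 * R0 := by
                apply Nat.mul_le_mul_right
                have : 1 ≤ q ^ 3 := Nat.one_le_pow _ _ (by omega)
                omega
              omega
          _ ≤ q * w := Nat.mul_le_mul_right _ hq2
      exact Nat.le_of_mul_le_mul_left e1 (by omega)
    rcases le_total j T with hjT | hjT
    · obtain ⟨u, hu, v, hv, h1, h2, h3⟩ := two_jumps (k := κ) hq2 h0 hBH hdil (by omega) hj htD
        (show dia D H ≤ j by omega) hjT hjw htw hjne (hlow j (by omega)) (hupp T (by omega)) hwN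
      refine ⟨u, v, hu, hv, h1, h2.trans ?_, h3⟩
      apply Nat.add_le_add_left
      exact Nat.mul_le_mul_left _ (by omega)
    · obtain ⟨u, hu, v, hv, h1, h2, h3⟩ := two_jumps (k := κ) hq2 h0 hBH hdil (by omega) htD hj
        (show dia D H ≤ T by omega) hjT htw hjw (fun h => hjne h.symm) (hlow T (by omega))
        (hupp j (by omega)) hwN
      refine ⟨u, v, hu, hv, h1, h2.trans ?_, h3⟩
      apply Nat.add_le_add_left
      exact Nat.mul_le_mul_left _ (by omega)
  choose! u v huv using hex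
  have hl := lac_levels (J.image (fun n : ℕ => (n : ℤ))) S P (by omega) (fun k => (u k : ℤ))
    (fun k => (v k : ℤ)) (fun k hk => Finset.mem_image_of_mem _ (huv k hk).1)
    (fun k hk => Finset.mem_image_of_mem _ (huv k hk).2.1)
    (fun k hk => by exact_mod_cast (huv k hk).2.2.2.2) ?_
  · refine hl.trans (Nat.mul_le_mul_left _ Finset.card_image_le)
  · intro k hk l hl hkl
    left
    obtain ⟨_, _, a1, a2, a3⟩ := huv k hk
    obtain ⟨_, _, b1, b2, b3⟩ := huv l hl
    have h1 : 3 * (q ^ (k - 1) * (2 * Sm)) ≤ q ^ (l - 1) * H := by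
      calc 3 * (q ^ (k - 1) * (2 * Sm)) = q ^ (k - 1) * (6 * Sm) := by ring
        _ ≤ q ^ (k - 1) * (q ^ P * H) := Nat.mul_le_mul_left _ hPH
        _ = q ^ (k - 1 + P) * H := by rw [pow_add]; ring
        _ ≤ q ^ (l - 1) * H := by
            apply Nat.mul_le_mul_right
            have := (hS k hk).1
            exact Nat.pow_le_pow_right (by omega) (by omega)
    omega

end H393R2.DE
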