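import Pool.Agent.H393R2.DE.Lift

/-! The gap of the top scale and the first live position after it, at every level. -/

set_option autoImplicit false

namespace H393R2.DE

open Finset
open Pool.Agent.H393R2.DC (UU mem_UU compl_card)

variable {F : Type*} [CommRing F]

omit [CommRing F] in
theorem gap_exists {V : Finset ℕ} {s : ℕ → F} {q P w : ℕ} (hq : 3 ≤ q) (hP : 2 ≤ P)
    (hw : 2 * q * ((Jmp V s (w / q ^ P) w).card + 1) * q ≤ w) (hw2 : 6 * q ^ 2 ≤ w) :
    ∃ z g : ℕ, w / q ^ 2 ≤ z ∧ z + g ≤ w / q ∧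
      w ≤ 6 * q * ((Jmp V s (w / q ^ P) w).card + 1) * g ∧
      (∀ x ∈ V, ∀ y ∈ V, z ≤ x → x ≤ z + g → z ≤ y → y ≤ z + g → s x = s y) := by
  classical
  set J := Jmp V s (w / q ^ P) w with hJ
  set n := J.card with hn
  set lo := w / q ^ 2 with hlo
  set hi := w / q with hhi
  set l := (hi - lo) / (n + 1) with hl
  have hqpos : 0 < q := by omega
  have hlohi : 3 * lo ≤ hi := by
    have h1 : lo = hi / q := by rw [hlo, hhi, pow_two, Nat.div_div_eq_div_mul]
    have h2 : hi / q * q ≤ hi := Nat.div_mul_le_self _ _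
    rw [h1]
    calc 3 * (hi / q) ≤ q * (hi / q) := Nat.mul_le_mul_right _ hq
      _ = hi / q * q := mul_comm _ _
      _ ≤ hi := h2
  have hqhi : w < q * (hi + 1) := by
    rw [hhi]; exact Nat.lt_mul_div_succ w hqpos
  -- hi ≥ 2 (n+1) q ... hence l ≥ 1
  have hhi2 : 2 * q * (n + 1) ≤ hi := by
    rw [hhi, Nat.le_div_iff_mul_le hqpos]; exact hw
  have hl1 : 1 ≤ l := by
    rw [hl, Nat.le_div_iff_mul_le (Nat.succ_pos n)]
    have : 2 * q * (n + 1) = (n + 1) * (2 * q) := by ring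
    have h6 : (n + 1) * 6 ≤ (n + 1) * (2 * q) := Nat.mul_le_mul_left _ (by omega)
    omega
  have hln : (n + 1) * l ≤ hi - lo := by
    rw [hl]; exact Nat.mul_div_le _ _
  have hln2 : hi - lo < (n + 1) * (l + 1) := by
    rw [hl]; exact Nat.lt_mul_div_succ _ (Nat.succ_pos n)
  -- pigeonhole
  have hpig : ∃ i ∈ Finset.range (n + 1), i ∉ J.image (fun u => (u - lo) / l) := by
    apply Finset.exists_mem_notMem_of_card_lt_card
    rw [Finset.card_range]
    have := Finset.card_image_le (s := J) (f := fun u => (u - lo) / l)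
    omega
  obtain ⟨i, hi1, hi2⟩ := hpig
  rw [Finset.mem_range] at hi1
  have hil : i * l + l ≤ (n + 1) * l := by
    calc i * l + l = (i + 1) * l := by ring
      _ ≤ (n + 1) * l := Nat.mul_le_mul_right _ hi1
  refine ⟨lo + i * l, l, by omega, by omega, ?_, ?_⟩
  · -- size
    have e1 : (n + 1) * (l + 1) ≤ (n + 1) * (2 * l) := Nat.mul_le_mul_left _ (by omega)
    have e2 : 2 * hi ≤ 3 * (hi - lo) := by omega
    have e3 : 2 * hi ≤ 6 * ((n + 1) * l) := by
      have : (n + 1) * (2 * l) = 2 * ((n + 1) * l) := by ring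
      omega
    have e4 : q * (2 * hi) ≤ q * (6 * ((n + 1) * l)) := Nat.mul_le_mul_left _ e3
    have e5 : q * (2 * hi) = 2 * (q * (hi + 1)) - 2 * q := by
      have : q * (2 * hi) + 2 * q = 2 * (q * (hi + 1)) := by ring
      omega
    have e6 : q * (6 * ((n + 1) * l)) = 6 * q * (n + 1) * l := by ring
    have e7 : 6 * q ≤ 6 * q ^ 2 := Nat.mul_le_mul_left _ (Nat.le_self_pow (by norm_num) q)
    omega
  · intro x hx y hy hx1 hx2 hy1 hy2
    refine const_of_no_Jmp (V := V) (s := s) (lo := w / q ^ P) (hi := w) (a := lo + i * l)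
      (b := lo + i * l + l) ?_ ?_ ?_ hx hy hx1 hx2 hy1 hy2
    · have : w / q ^ P ≤ w / q ^ 2 := Nat.div_le_div_left (Nat.pow_le_pow_right hqpos hP) (by positivity)
      omega
    · have : w / q ≤ w := Nat.div_le_self _ _
      omega
    · intro u hu hcon
      apply hi2
      rw [Finset.mem_image]
      refine ⟨u, hu, ?_⟩
      have h1 : u - lo = i * l + (u - (lo + i * l)) := by omega
      rw [h1, mul_comm i l, Nat.mul_add_div (by omega), Nat.div_eq_of_lt (by
        rw [mul_comm i l] at hcon; rw [mul_comm l i] at *; omega)]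
      simp

section

variable {D : Finset ℕ} {H : ℕ} {c : ℕ → F} {q K2 N : ℕ} {E : Finset ℕ}

/-- the first live position after the gap -/
theorem level_exists [IsDomain F] (h2 : (2 : F) ≠ 0) (hq : 3 ≤ q) (h0 : 0 ∈ D)
    (hBH : E.card * q ^ K2 ≤ H)
    (hdil : ∀ R ≤ N, R ∉ E → cum D c ((R / q : ℕ) : ℤ) = - cum D c (R : ℤ))
    {w R0 z g Sm K k : ℕ} {σ : F} (hσ : σ ≠ 0) (hkK : k ≤ K) (hK : K + 1 ≤ K2)
    (hR : ∀ x ∈ UU q K2 E N, w ≤ x → x ≤ w + R0 → cum D c (x : ℤ) = σ) (hN : w + R0 ≤ N)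
    (hz0 : 0 < z) (hz1 : z + g ≤ w / q)
    (hgap : ∀ x ∈ UU q K2 E N, ∀ y ∈ UU q K2 E N, z ≤ x → x ≤ z + g → z ≤ y → y ≤ z + g →
      cum D c (x : ℤ) = cum D c (y : ℤ))
    (hSm : 2 * dia D H + H + 1 ≤ Sm) (hR0 : q ^ (K + 1) * Sm ≤ R0) (hg : q ^ K * Sm ≤ g)
    (hRw : R0 ≤ 2 * w) :
    ∃ t ∈ D, wt D H c (cl D H t) ≠ 0 ∧ z ≤ q ^ k * (t - (dia D H + H)) ∧ q ^ k * t ≤ w + R0 ∧
      z + g < q ^ k * (t + dia D H + 1) ∧
      ∀ j ∈ D, wt D H c (cl D H j) ≠ 0 → j < t → q ^ k * (j - (dia D H + H)) < z := by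
  classical
  set V := UU q K2 E N with hV
  have hq2 : 2 ≤ q := by omega
  have hqk : 0 < q ^ k := pow_pos (by omega) _
  have hqk1 : 0 < q ^ (k + 1) := pow_pos (by omega) _
  have hpk : q ^ k ≤ q ^ K := Nat.pow_le_pow_right (by omega) hkK
  have hpk1 : q ^ (k + 1) ≤ q ^ (K + 1) := Nat.pow_le_pow_right (by omega) (by omega)
  have hpk2 : q ^ k ≤ q ^ (K + 1) := Nat.pow_le_pow_right (by omega) (by omega)
  have hwq : w / q ≤ w := Nat.div_le_self _ _
  -- general lifting of a far point in `[b + 1 + H, b + 1 + H + dia]`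
  have up : ∀ (X g : ℕ), 0 < X → H ≤ g → X * (g - H) + H ≤ X * g := by
    intro X g hX hg
    calc X * (g - H) + H ≤ X * (g - H) + X * H := by
          have := Nat.le_mul_of_pos_left H hX
          omega
      _ = X * g := by rw [← mul_add]; congr 1; omega
  have up2 : ∀ (X g : ℕ), 0 < X → X * g < X * (g + H + 1) := by
    intro X g hX
    exact Nat.mul_lt_mul_of_pos_left (by omega) hX
  -- first far point
  have hzlt : z < q ^ k * (z / q ^ k + 1) := Nat.lt_mul_div_succ z hqk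
  have hzle : q ^ k * (z / q ^ k) ≤ z := Nat.mul_div_le _ _
  have hwlt1 : w < q ^ (k + 1) * (w / q ^ (k + 1) + 1) := Nat.lt_mul_div_succ w hqk1
  have hwle1 : q ^ (k + 1) * (w / q ^ (k + 1)) ≤ w := Nat.mul_div_le _ _
  have hwlt0 : w < q ^ k * (w / q ^ k + 1) := Nat.lt_mul_div_succ w hqk
  have hwle0 : q ^ k * (w / q ^ k) ≤ w := Nat.mul_div_le _ _
  have h1w : ∀ g1 : ℕ, q ^ k * g1 ≤ w / q → g1 ≤ w / q ^ (k + 1) := by
    intro g1 h
    rw [pow_succ', ← Nat.div_div_eq_div_mul, Nat.le_div_iff_mul_le hqk, mul_comm]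
    exact h
  generalize hQz : z / q ^ k = Qz at *
  generalize hQw1 : w / q ^ (k + 1) = Qw1 at *
  generalize hQw0 : w / q ^ k = Qw0 at *
  obtain ⟨g1, hg1a, hg1b, hg1⟩ := far_exists (D := D) (H := H) (Qz + 1 + (dia D H + H))
  have hg1z : q ^ k * g1 ≤ z + g := by
    calc q ^ k * g1 ≤ q ^ k * (Qz + (2 * dia D H + H + 1)) :=
          Nat.mul_le_mul_left _ (by omega)
      _ = q ^ k * Qz + q ^ k * (2 * dia D H + H + 1) := by ring
      _ ≤ z + q ^ K * Sm := Nat.add_le_add hzle (Nat.mul_le_mul hpk hSm)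
      _ ≤ z + g := by omega
  have hg1l : z ≤ q ^ k * (g1 - H) := by
    refine le_trans hzlt.le (Nat.mul_le_mul_left _ (by omega))
  have hu1 := up (q ^ k) g1 hqk (by omega)
  obtain ⟨a1, a2, a3⟩ := lift_far (q := q) (K1 := K2) (N := N) (E := E) (H := H) hq2 hBH
    (k := k) (g := g1) (by omega)
  -- second far point
  obtain ⟨g2, hg2a, hg2b, hg2⟩ := far_exists (D := D) (H := H) (Qw1 + 1 + H)
  have hg2u : q ^ (k + 1) * g2 ≤ w + R0 := by
    calc q ^ (k + 1) * g2 ≤ q ^ (k + 1) * (Qw1 + Sm) :=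
          Nat.mul_le_mul_left _ (by omega)
      _ = q ^ (k + 1) * Qw1 + q ^ (k + 1) * Sm := by ring
      _ ≤ w + q ^ (K + 1) * Sm := Nat.add_le_add hwle1 (Nat.mul_le_mul_right _ hpk1)
      _ ≤ w + R0 := by omega
  have hg2l : w ≤ q ^ (k + 1) * (g2 - H) :=
    le_trans hwlt1.le (Nat.mul_le_mul_left _ (by omega))
  have hu2 := up (q ^ (k + 1)) g2 hqk1 (by omega)
  obtain ⟨b1, b2, b3⟩ := lift_far (q := q) (K1 := K2) (N := N) (E := E) (H := H) hq2 hBH
    (k := k + 1) (g := g2) (by omega)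
  -- third far point
  obtain ⟨g3, hg3a, hg3b, hg3⟩ := far_exists (D := D) (H := H) (Qw0 + 1 + H)
  have hg3u : q ^ k * g3 ≤ w + R0 := by
    calc q ^ k * g3 ≤ q ^ k * (Qw0 + Sm) :=
          Nat.mul_le_mul_left _ (by omega)
      _ = q ^ k * Qw0 + q ^ k * Sm := by ring
      _ ≤ w + q ^ (K + 1) * Sm := Nat.add_le_add hwle0 (Nat.mul_le_mul_right _ hpk2)
      _ ≤ w + R0 := by omega
  have hg3l : w ≤ q ^ k * (g3 - H) :=
    le_trans hwlt0.le (Nat.mul_le_mul_left _ (by omega))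
  have hu3 := up (q ^ k) g3 hqk (by omega)
  obtain ⟨c1, c2, c3⟩ := lift_far (q := q) (K1 := K2) (N := N) (E := E) (H := H) hq2 hBH
    (k := k) (g := g3) (by omega)
  -- values
  have v2 := near_far hq2 hdil hg2 (by omega) b1 b2 (by
    have := up2 (q ^ (k + 1)) g2 hqk1; omega)
  have v3 := near_far hq2 hdil hg3 (by omega) c1 c2 (by
    have := up2 (q ^ k) g3 hqk; omega)
  rw [hR _ b1 (by omega) (by omega)] at v2
  rw [hR _ c1 (by omega) (by omega)] at v3
  have hne23 : cum D c (g2 : ℤ) ≠ cum D c (g3 : ℤ) := by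
    rw [v2, v3, pow_succ]
    intro h
    have h3 : (2 : F) * ((-1) ^ k * σ) = 0 := by linear_combination -h
    rcases mul_eq_zero.1 h3 with h4 | h4
    · exact h2 h4
    · rcases mul_eq_zero.1 h4 with h5 | h5
      · exact pow_ne_zero k (neg_ne_zero.2 one_ne_zero) h5
      · exact hσ h5
  -- order
  have h12 : g1 ≤ g2 := by
    have h1 : g1 ≤ Qw1 := h1w g1 (by omega)
    omega
  have h23 : g2 ≤ g3 := by
    have h1 : q ^ (k + 1) * g2 ≤ q ^ (k + 1) * g3 := by
      calc q ^ (k + 1) * g2 ≤ w + R0 := hg2u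
        _ ≤ 3 * w := by omega
        _ ≤ q * w := Nat.mul_le_mul_right _ hq
        _ ≤ q * (q ^ k * g3) := Nat.mul_le_mul_left _ (by omega)
        _ = q ^ (k + 1) * g3 := by ring
    exact Nat.le_of_mul_le_mul_left h1 hqk1
  -- a live position
  have hlive : ∃ d ∈ D, g1 < d ∧ d < g3 ∧ wt D H c (cl D H d) ≠ 0 := by
    by_cases hc : cum D c (g1 : ℤ) = cum D c (g2 : ℤ)
    · have hc2 : cum D c (g1 : ℤ) ≠ cum D c (g3 : ℤ) := by rw [hc]; exact hne23
      obtain ⟨d, hd, e1, e2, e3⟩ := change_live hg1 hg3 (by omega) hc2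
      exact ⟨d, hd, by omega, by omega, e3⟩
    · obtain ⟨d, hd, e1, e2, e3⟩ := change_live hg1 hg2 (by omega) hc
      exact ⟨d, hd, by omega, by omega, e3⟩
  obtain ⟨d, hd, hd1, hd2, hd3⟩ := hlive
  set T := D.filter (fun t => wt D H c (cl D H t) ≠ 0 ∧ z ≤ q ^ k * (t - (dia D H + H))) with hT
  have hdT : d ∈ T := by
    rw [hT, Finset.mem_filter]
    refine ⟨hd, hd3, le_trans hzlt.le (Nat.mul_le_mul_left _ (by omega))⟩
  set t := T.min' ⟨d, hdT⟩ with ht
  have htT : t ∈ T := Finset.min'_mem _ _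
  have htmin : ∀ x ∈ T, t ≤ x := fun x hx => Finset.min'_le _ _ hx
  obtain ⟨htD, htw, htz⟩ := Finset.mem_filter.1 htT
  have htd : t ≤ d := htmin d hdT
  refine ⟨t, htD, htw, htz, ?_, ?_, ?_⟩
  · calc q ^ k * t ≤ q ^ k * g3 := Nat.mul_le_mul_left _ (by omega)
      _ ≤ w + R0 := hg3u
  · by_contra hcon
    push Not at hcon
    have hdia : dia D H ≤ t := by
      by_contra hlt
      push Not at hlt
      have : t - (dia D H + H) = 0 := by omega
      rw [this, mul_zero] at htz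
      omega
    exact no_live hq2 h0 hBH hdil (show k ≤ K2 by omega) htD hdia htw htz hcon (by omega) hgap
  · intro j hj hjw hjt
    by_contra hcon
    push Not at hcon
    have := htmin j (Finset.mem_filter.2 ⟨hj, hjw, hcon⟩)
    omega

end

end H393R2.DE
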