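import Pool.Agent.H393R2.DC.Chain
import Pool.Agent.H393R2.DE.Clu

/-! Lifting of far points to the top scale, jumps of the top scale. -/

set_option autoImplicit false

namespace H393R2.DE

open Finset
open Pool.Agent.H393R2.DC (UU mem_UU compl_card)

variable {F : Type*} [CommRing F]

/-- jumps of `s` along the set `V`, between `lo` and `hi` -/
noncomputable def Jmp (V : Finset ℕ) (s : ℕ → F) (lo hi : ℕ) : Finset ℕ :=
  open Classical in
  V.filter (fun u => lo ≤ u ∧ ∃ v ∈ V, u < v ∧ v ≤ hi ∧ s v ≠ s u ∧ ∀ w ∈ V, w ≤ u ∨ v ≤ w)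

omit [CommRing F] in
theorem mem_Jmp {V : Finset ℕ} {s : ℕ → F} {lo hi u : ℕ} :
    u ∈ Jmp V s lo hi ↔ u ∈ V ∧ lo ≤ u ∧
      ∃ v ∈ V, u < v ∧ v ≤ hi ∧ s v ≠ s u ∧ ∀ w ∈ V, w ≤ u ∨ v ≤ w := by
  classical
  unfold Jmp
  rw [Finset.mem_filter]

omit [CommRing F] in
theorem exists_Jmp {V : Finset ℕ} {s : ℕ → F} {lo hi x y : ℕ} (hx : x ∈ V) (hy : y ∈ V)
    (hxy : x < y) (hne : s x ≠ s y) (hlo : lo ≤ x) (hhi : y ≤ hi) :
    ∃ u ∈ Jmp V s lo hi, x ≤ u ∧ u < y := by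
  classical
  set T := V.filter (fun z => x ≤ z ∧ z < y ∧ s z ≠ s y) with hT
  have hxT : x ∈ T := Finset.mem_filter.2 ⟨hx, le_rfl, hxy, hne⟩
  set u := T.max' ⟨x, hxT⟩ with hu
  have huT : u ∈ T := Finset.max'_mem _ _
  have humax : ∀ z ∈ T, z ≤ u := fun z hz => Finset.le_max' _ _ hz
  obtain ⟨huV, hxu, huy, hsu⟩ := Finset.mem_filter.1 huT
  set T2 := V.filter (fun z => u < z) with hT2
  have hyT2 : y ∈ T2 := Finset.mem_filter.2 ⟨hy, huy⟩
  set v := T2.min' ⟨y, hyT2⟩ with hv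
  have hvT2 : v ∈ T2 := Finset.min'_mem _ _
  have hvmin : ∀ z ∈ T2, v ≤ z := fun z hz => Finset.min'_le _ _ hz
  obtain ⟨hvV, huv⟩ := Finset.mem_filter.1 hvT2
  have hvy : v ≤ y := hvmin y hyT2
  have hsv : s v = s y := by
    rcases hvy.eq_or_lt with h | h
    · rw [h]
    · by_contra hne2
      have : v ≤ u := humax v (Finset.mem_filter.2 ⟨hvV, by omega, h, hne2⟩)
      omega
  refine ⟨u, mem_Jmp.2 ⟨huV, by omega, v, hvV, huv, by omega, ?_, ?_⟩, hxu, huy⟩
  · rw [hsv]; exact fun h => hsu h.symm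
  · intro w hw
    rcases le_or_gt w u with h | h
    · exact Or.inl h
    · exact Or.inr (hvmin w (Finset.mem_filter.2 ⟨hw, h⟩))

omit [CommRing F] in
/-- no jump in a region: constant -/
theorem const_of_no_Jmp {V : Finset ℕ} {s : ℕ → F} {lo hi a b : ℕ} (hlo : lo ≤ a) (hhi : b ≤ hi)
    (h : ∀ u ∈ Jmp V s lo hi, ¬ (a ≤ u ∧ u < b)) {x y : ℕ} (hx : x ∈ V) (hy : y ∈ V)
    (hax : a ≤ x) (hxb : x ≤ b) (hay : a ≤ y) (hyb : y ≤ b) : s x = s y := by
  by_contra hne
  rcases lt_trichotomy x y with h1 | h1 | h1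
  · obtain ⟨u, hu, h2, h3⟩ := exists_Jmp (lo := lo) (hi := hi) hx hy h1 hne (by omega) (by omega)
    exact h u hu ⟨by omega, by omega⟩
  · rw [h1] at hne; exact hne rfl
  · obtain ⟨u, hu, h2, h3⟩ := exists_Jmp (lo := lo) (hi := hi) hy hx h1 (fun h => hne h.symm)
      (by omega) (by omega)
    exact h u hu ⟨by omega, by omega⟩

section

variable {D : Finset ℕ} {H : ℕ} {c : ℕ → F} {q K1 N : ℕ} {E : Finset ℕ}

theorem uu_exists (hq : 2 ≤ q) {a : ℕ} (ha : a + E.card * q ^ K1 ≤ N) :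
    ∃ x ∈ UU q K1 E N, a ≤ x ∧ x ≤ a + E.card * q ^ K1 := by
  classical
  by_contra hcon
  push Not at hcon
  have hsub : Finset.Icc a (a + E.card * q ^ K1) ⊆
      (range (N + 1)).filter (fun u => u ∉ UU q K1 E N) := by
    intro x hx
    rw [Finset.mem_Icc] at hx
    rw [Finset.mem_filter, Finset.mem_range]
    refine ⟨by omega, fun h => ?_⟩
    have := hcon x h hx.1
    omega
  have h1 := (Finset.card_le_card hsub).trans (compl_card hq K1 E N)
  rw [Nat.card_Icc] at h1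
  omega

theorem iter {s : ℕ → F} (hdil : ∀ R ≤ N, R ∉ E → s (R / q) = - s R) {x : ℕ}
    (hx : x ∈ UU q K1 E N) : ∀ k ≤ K1, s (x / q ^ k) = (-1) ^ k * s x := by
  rw [mem_UU] at hx
  intro k
  induction k with
  | zero => intro _; simp
  | succ k ih =>
    intro hk
    have h1 := ih (by omega)
    have h2 := hdil (x / q ^ k) ((Nat.div_le_self _ _).trans hx.1) (hx.2 k (by omega))
    rw [pow_succ, ← Nat.div_div_eq_div_mul, h2, h1]
    ring

/-- value at points above a far point -/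
theorem near_far (hq : 2 ≤ q)
    (hdil : ∀ R ≤ N, R ∉ E → cum D c ((R / q : ℕ) : ℤ) = - cum D c (R : ℤ)) {g k x : ℕ}
    (hg : Far D H (g : ℤ)) (hk : k ≤ K1) (hx : x ∈ UU q K1 E N) (h1 : q ^ k * (g - H) ≤ x)
    (h2 : x < q ^ k * (g + H + 1)) : cum D c (g : ℤ) = (-1) ^ k * cum D c (x : ℤ) := by
  have h3 := iter (s := fun R : ℕ => cum D c (R : ℤ)) hdil hx k hk
  rw [← h3]
  symm
  apply cum_far hg
  have hqk : 0 < q ^ k := pow_pos (by omega) _
  have h4 : g - H ≤ x / q ^ k := by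
    rw [Nat.le_div_iff_mul_le hqk, mul_comm]; exact h1
  have h5 : x / q ^ k < g + H + 1 := by
    rw [Nat.div_lt_iff_lt_mul hqk, mul_comm]; exact h2
  set y := x / q ^ k with hy
  rw [abs_le]
  constructor <;> omega

/-- two points above the same far point, or above two far points with equal values -/
theorem ne_of_far (hq : 2 ≤ q)
    (hdil : ∀ R ≤ N, R ∉ E → cum D c ((R / q : ℕ) : ℤ) = - cum D c (R : ℤ)) {g g' k x x' : ℕ}
    (hg : Far D H (g : ℤ)) (hg' : Far D H (g' : ℤ)) (hk : k ≤ K1) (hx : x ∈ UU q K1 E N)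
    (hx' : x' ∈ UU q K1 E N)
    (h1 : q ^ k * (g - H) ≤ x) (h2 : x < q ^ k * (g + H + 1))
    (h1' : q ^ k * (g' - H) ≤ x') (h2' : x' < q ^ k * (g' + H + 1))
    (hne : cum D c (g : ℤ) ≠ cum D c (g' : ℤ)) : cum D c (x : ℤ) ≠ cum D c (x' : ℤ) := by
  intro he
  apply hne
  rw [near_far hq hdil hg hk hx h1 h2, near_far hq hdil hg' hk hx' h1' h2', he]

theorem far_gap (_h0 : 0 ∈ D) {g g' : ℕ} (hg : Far D H (g : ℤ)) (hg' : Far D H (g' : ℤ))
    (h : g ≤ g') (hne : cum D c (g : ℤ) ≠ cum D c (g' : ℤ)) : g + H + 1 + H + 1 ≤ g' := by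
  obtain ⟨d, hd, h1, h2, _⟩ := change_live hg hg' (by omega) hne
  have h3 := hg d hd
  have h4 := hg' d hd
  rcases lt_abs.1 h3 with h5 | h5 <;> rcases lt_abs.1 h4 with h6 | h6 <;> omega

theorem far_gt (h0 : 0 ∈ D) {g : ℕ} (hg : Far D H (g : ℤ)) : H < g := by
  have := hg 0 h0
  simp only [Nat.cast_zero, sub_zero] at this
  rw [abs_of_nonneg (Int.natCast_nonneg g)] at this
  exact_mod_cast this

/-- least element of `UU` above `y` -/
noncomputable def lft (V : Finset ℕ) (y : ℕ) : ℕ := sInf {x | x ∈ V ∧ y ≤ x}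

theorem lft_spec {V : Finset ℕ} {y x : ℕ} (hx : x ∈ V) (hy : y ≤ x) :
    lft V y ∈ V ∧ y ≤ lft V y ∧ lft V y ≤ x := by
  have hne : {x | x ∈ V ∧ y ≤ x}.Nonempty := ⟨x, hx, hy⟩
  have h1 := Nat.sInf_mem hne
  exact ⟨h1.1, h1.2, Nat.sInf_le ⟨hx, hy⟩⟩

/-- lifts of far points at level `k` -/
theorem lift_far (hq : 2 ≤ q) (hBH : E.card * q ^ K1 ≤ H) {k g : ℕ}
    (hgN : q ^ k * (g - H) + H ≤ N) :
    lft (UU q K1 E N) (q ^ k * (g - H)) ∈ UU q K1 E N ∧
      q ^ k * (g - H) ≤ lft (UU q K1 E N) (q ^ k * (g - H)) ∧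
      lft (UU q K1 E N) (q ^ k * (g - H)) ≤ q ^ k * (g - H) + H := by
  obtain ⟨x, hx, h1, h2⟩ := uu_exists (q := q) (K1 := K1) (N := N) (E := E) hq
    (a := q ^ k * (g - H)) (by omega)
  obtain ⟨a1, a2, a3⟩ := lft_spec hx h1
  exact ⟨a1, a2, by omega⟩

/-- a live position in a region where `s` is constant on `UU`: impossible -/
theorem no_live (hq : 2 ≤ q) (h0 : 0 ∈ D) (hBH : E.card * q ^ K1 ≤ H)
    (hdil : ∀ R ≤ N, R ∉ E → cum D c ((R / q : ℕ) : ℤ) = - cum D c (R : ℤ)) {k d z z' : ℕ}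
    (hk : k ≤ K1) (hd : d ∈ D) (hdia : dia D H ≤ d) (hw : wt D H c (cl D H d) ≠ 0)
    (hz : z ≤ q ^ k * (d - (dia D H + H))) (hz' : q ^ k * (d + dia D H + 1) ≤ z') (hN : z' ≤ N)
    (hconst : ∀ x ∈ UU q K1 E N, ∀ y ∈ UU q K1 E N, z ≤ x → x ≤ z' → z ≤ y → y ≤ z' →
      cum D c (x : ℤ) = cum D c (y : ℤ)) : False := by
  obtain ⟨g, hg, hdg, hgle, hmin, hne⟩ := live_change hd hdia hw
  have hp : Far D H (cl D H d : ℤ) := cl_far hdia
  have hqk : 0 < q ^ k := pow_pos (by omega) _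
  have hpd := cl_le (D := D) (H := H) d
  have hdp := sub_cl_le (D := D) (H := H) d
  have hpH := far_gt h0 hp
  have hgH := far_gt h0 hg
  have hgap := far_gap h0 hp hg (by omega) hne
  have e1 : q ^ k * (d - (dia D H + H)) ≤ q ^ k * (cl D H d - H) :=
    Nat.mul_le_mul_left _ (by omega)
  have e2 : q ^ k * (g - H) + H ≤ q ^ k * (d + dia D H + 1) := by
    calc q ^ k * (g - H) + H ≤ q ^ k * (g - H) + q ^ k * H := by
          have := Nat.le_mul_of_pos_left H hqk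
          omega
      _ = q ^ k * (g - H + H) := by ring
      _ ≤ _ := Nat.mul_le_mul_left _ (by omega)
  have e3 : q ^ k * (cl D H d - H) ≤ q ^ k * (g - H) := Nat.mul_le_mul_left _ (by omega)
  obtain ⟨a1, a2, a3⟩ := lift_far (q := q) (K1 := K1) (N := N) (E := E) (H := H) hq hBH
    (k := k) (g := cl D H d) (by omega)
  obtain ⟨b1, b2, b3⟩ := lift_far (q := q) (K1 := K1) (N := N) (E := E) (H := H) hq hBH
    (k := k) (g := g) (by omega)
  have up : ∀ x g : ℕ, H < g → x ≤ q ^ k * (g - H) + H → x < q ^ k * (g + H + 1) := by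
    intro x g hg hx
    calc x ≤ q ^ k * (g - H) + H := hx
      _ ≤ q ^ k * (g - H) + q ^ k * H := by
          have := Nat.le_mul_of_pos_left H hqk
          omega
      _ = q ^ k * g := by rw [← mul_add]; congr 1; omega
      _ < q ^ k * (g + H + 1) := by
          apply Nat.mul_lt_mul_of_pos_left _ hqk
          omega
  refine ne_of_far hq hdil hp hg hk a1 b1 a2 (up _ _ hpH a3) b2 (up _ _ hgH b3) hne ?_
  exact hconst _ a1 _ b1 (by omega) (by omega) (by omega) (by omega)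

/-- a live position gives a jump of the top scale -/
theorem live_jump (hq : 2 ≤ q) (h0 : 0 ∈ D) (hBH : E.card * q ^ K1 ≤ H)
    (hdil : ∀ R ≤ N, R ∉ E → cum D c ((R / q : ℕ) : ℤ) = - cum D c (R : ℤ)) {k d lo hi : ℕ}
    (hk : k ≤ K1) (hd : d ∈ D) (hdia : dia D H ≤ d) (hw : wt D H c (cl D H d) ≠ 0)
    (hz : lo ≤ q ^ k * (d - (dia D H + H))) (hz' : q ^ k * (d + dia D H + 1) ≤ hi) (hN : hi ≤ N) :
    ∃ g : ℕ, Far D H (g : ℤ) ∧ d < g ∧ g ≤ cl D H d + dia D H + 1 ∧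
      (∀ x : ℕ, cl D H d < x → x < g → ¬ Far D H (x : ℤ)) ∧
      cum D c (cl D H d : ℤ) ≠ cum D c (g : ℤ) ∧
      ∃ u ∈ Jmp (UU q K1 E N) (fun x : ℕ => cum D c (x : ℤ)) lo hi,
        lft (UU q K1 E N) (q ^ k * (cl D H d - H)) ≤ u ∧
        u < lft (UU q K1 E N) (q ^ k * (g - H)) := by
  obtain ⟨g, hg, hdg, hgle, hmin, hne⟩ := live_change hd hdia hw
  have hp : Far D H (cl D H d : ℤ) := cl_far hdia
  have hqk : 0 < q ^ k := pow_pos (by omega) _
  have hpd := cl_le (D := D) (H := H) d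
  have hdp := sub_cl_le (D := D) (H := H) d
  have hpH := far_gt h0 hp
  have hgH := far_gt h0 hg
  have hgap := far_gap h0 hp hg (by omega) hne
  have e1 : q ^ k * (d - (dia D H + H)) ≤ q ^ k * (cl D H d - H) :=
    Nat.mul_le_mul_left _ (by omega)
  have e2 : q ^ k * (g - H) + H ≤ q ^ k * (d + dia D H + 1) := by
    calc q ^ k * (g - H) + H ≤ q ^ k * (g - H) + q ^ k * H := by
          have := Nat.le_mul_of_pos_left H hqk
          omega
      _ = q ^ k * (g - H + H) := by ring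
      _ ≤ _ := Nat.mul_le_mul_left _ (by omega)
  have e3 : q ^ k * (cl D H d - H) ≤ q ^ k * (g - H) := Nat.mul_le_mul_left _ (by omega)
  obtain ⟨a1, a2, a3⟩ := lift_far (q := q) (K1 := K1) (N := N) (E := E) (H := H) hq hBH
    (k := k) (g := cl D H d) (by omega)
  obtain ⟨b1, b2, b3⟩ := lift_far (q := q) (K1 := K1) (N := N) (E := E) (H := H) hq hBH
    (k := k) (g := g) (by omega)
  have up : ∀ x g : ℕ, H < g → x ≤ q ^ k * (g - H) + H → x < q ^ k * (g + H + 1) := by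
    intro x g hg hx
    calc x ≤ q ^ k * (g - H) + H := hx
      _ ≤ q ^ k * (g - H) + q ^ k * H := by
          have := Nat.le_mul_of_pos_left H hqk
          omega
      _ = q ^ k * g := by rw [← mul_add]; congr 1; omega
      _ < q ^ k * (g + H + 1) := by
          apply Nat.mul_lt_mul_of_pos_left _ hqk
          omega
  have hne2 := ne_of_far hq hdil hp hg hk a1 b1 a2 (up _ _ hpH a3) b2 (up _ _ hgH b3) hne
  have hlt : lft (UU q K1 E N) (q ^ k * (cl D H d - H)) < lft (UU q K1 E N) (q ^ k * (g - H)) := by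
    have h1 := up _ _ hpH a3
    have h2 : q ^ k * (cl D H d + H + 1) ≤ q ^ k * (g - H) := Nat.mul_le_mul_left _ (by omega)
    omega
  obtain ⟨u, hu, h1, h2⟩ := exists_Jmp (V := UU q K1 E N) (s := fun x : ℕ => cum D c (x : ℤ))
    (lo := lo) (hi := hi) a1 b1 hlt hne2 (by omega) (by omega)
  exact ⟨g, hg, hdg, hgle, hmin, hne, u, hu, h1, h2⟩

/-- number of live labels bounded by the number of jumps -/
theorem labels_card (hq : 2 ≤ q) (h0 : 0 ∈ D) (hBH : E.card * q ^ K1 ≤ H)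
    (hdil : ∀ R ≤ N, R ∉ E → cum D c ((R / q : ℕ) : ℤ) = - cum D c (R : ℤ)) {k lo hi : ℕ}
    (hk : k ≤ K1) (hN : hi ≤ N) (X : Finset ℕ) (hX : ∀ d ∈ X, d ∈ D ∧ dia D H ≤ d ∧
      wt D H c (cl D H d) ≠ 0 ∧ lo ≤ q ^ k * (d - (dia D H + H)) ∧
      q ^ k * (d + dia D H + 1) ≤ hi) :
    (X.image (cl D H)).card ≤
      (Jmp (UU q K1 E N) (fun x : ℕ => cum D c (x : ℤ)) lo hi).card := by
  classical
  set V := UU q K1 E N with hV
  have hex : ∀ p ∈ X.image (cl D H), ∃ u g : ℕ, Far D H (p : ℤ) ∧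
      u ∈ Jmp V (fun x : ℕ => cum D c (x : ℤ)) lo hi ∧ p < g ∧
      (∀ x : ℕ, p < x → x < g → ¬ Far D H (x : ℤ)) ∧
      lft V (q ^ k * (p - H)) ≤ u ∧ u < lft V (q ^ k * (g - H)) ∧
      (lft V (q ^ k * (p - H)) ∈ V ∧ q ^ k * (p - H) ≤ lft V (q ^ k * (p - H))) := by
    intro p hp
    obtain ⟨d, hdX, rfl⟩ := Finset.mem_image.1 hp
    obtain ⟨hd, hdia, hw, h1, h2⟩ := hX d hdX
    obtain ⟨g, hg, hdg, hgle, hmin, hne, u, hu, h3, h4⟩ :=
      live_jump hq h0 hBH hdil hk hd hdia hw h1 h2 hN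
    have hqk : 0 < q ^ k := pow_pos (by omega) _
    have hpd := cl_le (D := D) (H := H) d
    have hdp := sub_cl_le (D := D) (H := H) d
    have e1 : q ^ k * (cl D H d - H) + H ≤ q ^ k * (d + dia D H + 1) := by
      have hpH := far_gt h0 (cl_far hdia)
      calc q ^ k * (cl D H d - H) + H ≤ q ^ k * (cl D H d - H) + q ^ k * H := by
            have := Nat.le_mul_of_pos_left H hqk
            omega
        _ = q ^ k * (cl D H d - H + H) := by ring
        _ ≤ _ := Nat.mul_le_mul_left _ (by omega)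
    obtain ⟨a1, a2, a3⟩ := lift_far (q := q) (K1 := K1) (N := N) (E := E) (H := H) hq hBH
      (k := k) (g := cl D H d) (by omega)
    exact ⟨u, g, cl_far hdia, hu, by omega, hmin, h3, h4, a1, a2⟩
  choose! φ ψ hφ using hex
  apply Finset.card_le_card_of_injOn φ
  · intro p hp
    exact (hφ p hp).2.1
  · have key : ∀ p ∈ X.image (cl D H), ∀ p' ∈ X.image (cl D H), p < p' → φ p < φ p' := by
      intro p hp p' hp' hlt
      obtain ⟨f1, _, f3, f4, f5, f6, _⟩ := hφ p hp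
      obtain ⟨g1, _, g3, g4, g5, g6, g7, g8⟩ := hφ p' hp'
      have h1 : ψ p ≤ p' := by
        by_contra hcon
        push Not at hcon
        exact f4 p' hlt hcon g1
      have h2 : q ^ k * (ψ p - H) ≤ q ^ k * (p' - H) := Nat.mul_le_mul_left _ (by omega)
      have h3 := (lft_spec (V := V) (y := q ^ k * (ψ p - H)) g7 (by omega)).2.2
      omega
    intro p hp p' hp' he
    rw [Finset.mem_coe] at hp hp'
    rcases lt_trichotomy p p' with h | h | h
    · have := key p hp p' hp' h; omega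
    · exact h
    · have := key p' hp' p hp h; omega

/-- two live positions with different labels give two jumps at a controlled distance -/
theorem two_jumps (hq : 2 ≤ q) (h0 : 0 ∈ D) (hBH : E.card * q ^ K1 ≤ H)
    (hdil : ∀ R ≤ N, R ∉ E → cum D c ((R / q : ℕ) : ℤ) = - cum D c (R : ℤ)) {k a b lo hi : ℕ}
    (hk : k ≤ K1) (ha : a ∈ D) (hb : b ∈ D) (hdia : dia D H ≤ a) (hab : a ≤ b)
    (hwa : wt D H c (cl D H a) ≠ 0) (hwb : wt D H c (cl D H b) ≠ 0)
    (hne0 : cl D H a ≠ cl D H b)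
    (hz : lo ≤ q ^ k * (a - (dia D H + H))) (hz' : q ^ k * (b + dia D H + 1) ≤ hi) (hN : hi ≤ N) :
    ∃ u ∈ Jmp (UU q K1 E N) (fun x : ℕ => cum D c (x : ℤ)) lo hi,
    ∃ v ∈ Jmp (UU q K1 E N) (fun x : ℕ => cum D c (x : ℤ)) lo hi,
      u + q ^ k * H ≤ v ∧ v ≤ u + q ^ k * (b - a + 2 * dia D H + H + 1) ∧ u < v := by
  classical
  set V := UU q K1 E N with hV
  set s : ℕ → F := fun x : ℕ => cum D c (x : ℤ) with hs
  have hqk : 0 < q ^ k := pow_pos (by omega) _
  have hbdia : dia D H ≤ b := by omega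
  have hpa := cl_le (D := D) (H := H) a
  have hap := sub_cl_le (D := D) (H := H) a
  have hpb := cl_le (D := D) (H := H) b
  have hbp := sub_cl_le (D := D) (H := H) b
  have hmono := cl_mono (D := D) (H := H) hab
  have hba : q ^ k * (a + dia D H + 1) ≤ hi :=
    le_trans (Nat.mul_le_mul_left _ (by omega)) hz'
  obtain ⟨g, hg, hag, hgle, hmin, hne, u, hu, hu1, hu2⟩ :=
    live_jump hq h0 hBH hdil hk ha hdia hwa hz hba hN
  obtain ⟨g2, hg2, hbg2, hg2le, hmin2, hne2⟩ := live_change hb hbdia hwb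
  have hpA : Far D H (cl D H a : ℤ) := cl_far hdia
  have hpB : Far D H (cl D H b : ℤ) := cl_far hbdia
  have hgB : g ≤ cl D H b := by
    by_contra hcon
    push Not at hcon
    exact hmin _ (by omega) hcon hpB
  have hpAH := far_gt h0 hpA
  have hgH := far_gt h0 hg
  -- the far point whose value differs from `g`
  obtain ⟨g', hg', hgg', hg'le, hne'⟩ : ∃ g' : ℕ, Far D H (g' : ℤ) ∧ g ≤ g' ∧ g' ≤ g2 ∧
      cum D c (g : ℤ) ≠ cum D c (g' : ℤ) := by
    by_cases h : cum D c (g : ℤ) = cum D c (cl D H b : ℤ)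
    · exact ⟨g2, hg2, by omega, le_rfl, by rw [h]; exact hne2⟩
    · exact ⟨cl D H b, hpB, hgB, by omega, h⟩
  have hgap := far_gap h0 hg hg' hgg' hne'
  have up : ∀ x g : ℕ, H < g → x ≤ q ^ k * (g - H) + H → x < q ^ k * (g + H + 1) := by
    intro x g hg hx
    calc x ≤ q ^ k * (g - H) + H := hx
      _ ≤ q ^ k * (g - H) + q ^ k * H := by
          have := Nat.le_mul_of_pos_left H hqk
          omega
      _ = q ^ k * g := by rw [← mul_add]; congr 1; omega
      _ < q ^ k * (g + H + 1) := by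
          apply Nat.mul_lt_mul_of_pos_left _ hqk
          omega
  have e2 : q ^ k * (g' - H) + H ≤ q ^ k * (b + dia D H + 1) := by
    calc q ^ k * (g' - H) + H ≤ q ^ k * (g' - H) + q ^ k * H := by
          have := Nat.le_mul_of_pos_left H hqk
          omega
      _ = q ^ k * (g' - H + H) := by ring
      _ ≤ _ := Nat.mul_le_mul_left _ (by omega)
  have e3 : q ^ k * (g + H + 1) ≤ q ^ k * (g' - H) := Nat.mul_le_mul_left _ (by omega)
  have e4 : q ^ k * (cl D H a - H) ≤ q ^ k * (g - H) := Nat.mul_le_mul_left _ (by omega)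
  have e5 : q ^ k * (g - H) + q ^ k * (2 * H + 1) = q ^ k * (g + H + 1) := by
    rw [← mul_add]; congr 1; omega
  have e6 : q ^ k * H + q ^ k * H + q ^ k = q ^ k * (2 * H + 1) := by ring
  have e7 : H ≤ q ^ k * H := Nat.le_mul_of_pos_left H hqk
  -- right lift of `g`
  obtain ⟨x3, hx3, h31, h32⟩ := uu_exists (q := q) (K1 := K1) (N := N) (E := E) hq
    (a := q ^ k * (g + H + 1) - 1 - E.card * q ^ K1) (by omega)
  -- left lift of `g'`
  obtain ⟨b1, b2, b3⟩ := lift_far (q := q) (K1 := K1) (N := N) (E := E) (H := H) hq hBH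
    (k := k) (g := g') (by omega)
  have hsne := ne_of_far hq hdil hg hg' hk hx3 b1 (by omega) (by omega) b2
    (up _ _ (by omega) b3) hne'
  obtain ⟨a1, a2, a3⟩ := lift_far (q := q) (K1 := K1) (N := N) (E := E) (H := H) hq hBH
    (k := k) (g := cl D H a) (by omega)
  have e8 : q ^ k * (a - (dia D H + H)) ≤ q ^ k * (cl D H a - H) :=
    Nat.mul_le_mul_left _ (by omega)
  obtain ⟨v, hv, hv1, hv2⟩ := exists_Jmp (V := V) (s := s)
    (lo := lo) (hi := hi) hx3 b1 (by omega) hsne (by omega) (by omega)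
  -- `u < q^k (g - H)`
  obtain ⟨c1, c2, c3⟩ := lift_far (q := q) (K1 := K1) (N := N) (E := E) (H := H) hq hBH
    (k := k) (g := g) (by omega)
  have hu2' : u < lft V (q ^ k * (g - H)) := hu2
  have hult : u < q ^ k * (g - H) := by
    by_contra hcon
    push Not at hcon
    have := (lft_spec (V := V) (y := q ^ k * (g - H)) (mem_Jmp.1 hu).1 hcon).2.2
    omega
  refine ⟨u, hu, v, hv, by omega, ?_, by omega⟩
  have e9 : q ^ k * (b + dia D H + 1) ≤
      q ^ k * (cl D H a - H) + q ^ k * (b - a + 2 * dia D H + H + 1) := by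
    rw [← mul_add]; exact Nat.mul_le_mul_left _ (by omega)
  omega

end

end H393R2.DE
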