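import Mathlib

/-! Walks with distinct prime labels: an upper bound for the number of edges. -/

namespace H393R2.DE

open Finset

/-- A subset with large minimum degree. -/
theorem exists_core {α ι : Type*} [DecidableEq α] [DecidableEq ι] (E : Finset ι) (f g : ι → α)
    (c : ℕ) : ∀ (n : ℕ) (V : Finset α), V.card = n →
      c * V.card < (E.filter (fun e => f e ∈ V ∧ g e ∈ V)).card →
      ∃ V' ⊆ V, V'.Nonempty ∧ ∀ v ∈ V',
        c < (E.filter (fun e => (f e ∈ V' ∧ g e ∈ V') ∧ (f e = v ∨ g e = v))).card := by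
  intro n
  induction n with
  | zero =>
    intro V hV h
    have hVe : V = ∅ := Finset.card_eq_zero.1 hV
    subst hVe
    simp at h
  | succ n ih =>
    intro V hV h
    by_cases hall : ∀ v ∈ V,
        c < (E.filter (fun e => (f e ∈ V ∧ g e ∈ V) ∧ (f e = v ∨ g e = v))).card
    · refine ⟨V, subset_rfl, ?_, hall⟩
      rw [← Finset.card_pos]; omega
    · push Not at hall
      obtain ⟨v, hv, hvc⟩ := hall
      have hcard : (V.erase v).card = n := by
        rw [Finset.card_erase_of_mem hv]; omega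
      have hsplit : (E.filter (fun e => f e ∈ V ∧ g e ∈ V)).card ≤
          (E.filter (fun e => f e ∈ V.erase v ∧ g e ∈ V.erase v)).card +
          (E.filter (fun e => (f e ∈ V ∧ g e ∈ V) ∧ (f e = v ∨ g e = v))).card := by
        rw [← Finset.card_union_add_card_inter]
        refine le_trans (Finset.card_le_card ?_) (Nat.le_add_right _ _)
        intro e he
        rw [Finset.mem_filter] at he
        rw [Finset.mem_union, Finset.mem_filter, Finset.mem_filter]
        by_cases h1 : f e = v ∨ g e = v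
        · right; exact ⟨he.1, he.2, h1⟩
        · left
          push Not at h1
          exact ⟨he.1, Finset.mem_erase.2 ⟨h1.1, he.2.1⟩, Finset.mem_erase.2 ⟨h1.2, he.2.2⟩⟩
      have hlt : c * (V.erase v).card <
          (E.filter (fun e => f e ∈ V.erase v ∧ g e ∈ V.erase v)).card := by
        rw [hcard]
        rw [hV] at h
        have : c * (n + 1) = c * n + c := by ring
        omega
      obtain ⟨V', hV', hne, hdeg⟩ := ih _ hcard hlt
      exact ⟨V', hV'.trans (Finset.erase_subset _ _), hne, hdeg⟩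

/-- product of the up primes -/
def upP (σ : Finset (ℕ × Bool)) : ℕ := ∏ x ∈ σ, if x.2 then x.1 else 1
/-- product of the down primes -/
def dnP (σ : Finset (ℕ × Bool)) : ℕ := ∏ x ∈ σ, if x.2 then 1 else x.1

/-- no prime occurs with both signs -/
def Cons (σ : Finset (ℕ × Bool)) : Prop := ∀ p, ¬ ((p, true) ∈ σ ∧ (p, false) ∈ σ)

theorem upP_insert {σ : Finset (ℕ × Bool)} {p : ℕ × Bool} (h : p ∉ σ) :
    upP (insert p σ) = (if p.2 then p.1 else 1) * upP σ := by
  unfold upP; rw [Finset.prod_insert h]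

theorem dnP_insert {σ : Finset (ℕ × Bool)} {p : ℕ × Bool} (h : p ∉ σ) :
    dnP (insert p σ) = (if p.2 then 1 else p.1) * dnP σ := by
  unfold dnP; rw [Finset.prod_insert h]

theorem dvd_upP {σ : Finset (ℕ × Bool)} (hp : ∀ x ∈ σ, x.1.Prime) {p : ℕ} (hpp : p.Prime) :
    p ∣ upP σ ↔ (p, true) ∈ σ := by
  unfold upP
  rw [hpp.prime.dvd_finsetProd_iff]
  constructor
  · rintro ⟨⟨q, d⟩, hx, hd⟩
    cases d with
    | true =>
      simp only [if_true] at hd
      rw [Nat.prime_dvd_prime_iff_eq hpp (hp _ hx)] at hd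
      rw [hd]; exact hx
    | false =>
      simp at hd
      exact absurd hd hpp.one_lt.ne'
  · intro h
    exact ⟨(p, true), h, by simp⟩

theorem dvd_dnP {σ : Finset (ℕ × Bool)} (hp : ∀ x ∈ σ, x.1.Prime) {p : ℕ} (hpp : p.Prime) :
    p ∣ dnP σ ↔ (p, false) ∈ σ := by
  unfold dnP
  rw [hpp.prime.dvd_finsetProd_iff]
  constructor
  · rintro ⟨⟨q, d⟩, hx, hd⟩
    cases d with
    | false =>
      simp only [Bool.false_eq_true, if_false] at hd
      rw [Nat.prime_dvd_prime_iff_eq hpp (hp _ hx)] at hd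
      rw [hd]; exact hx
    | true =>
      simp at hd
      exact absurd hd hpp.one_lt.ne'
  · intro h
    exact ⟨(p, false), h, by simp⟩

theorem sub_of_cross {σ τ : Finset (ℕ × Bool)} (hσ : ∀ x ∈ σ, x.1.Prime)
    (hτ : ∀ x ∈ τ, x.1.Prime) (cσ : Cons σ) (h : upP σ * dnP τ = upP τ * dnP σ) : σ ⊆ τ := by
  rintro ⟨p, d⟩ hx
  have hpp : p.Prime := hσ _ hx
  cases d with
  | true =>
    have h1 : p ∣ upP σ := (dvd_upP hσ hpp).2 hx
    have h2 : p ∣ upP τ * dnP σ := h ▸ Dvd.dvd.mul_right h1 _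
    rcases (hpp.dvd_mul).1 h2 with h3 | h3
    · exact (dvd_upP hτ hpp).1 h3
    · exact absurd ⟨hx, (dvd_dnP hσ hpp).1 h3⟩ (cσ p)
  | false =>
    have h1 : p ∣ dnP σ := (dvd_dnP hσ hpp).2 hx
    have h2 : p ∣ upP σ * dnP τ := h ▸ Dvd.dvd.mul_left h1 _
    rcases (hpp.dvd_mul).1 h2 with h3 | h3
    · exact absurd ⟨(dvd_upP hσ hpp).1 h3, hx⟩ (cσ p)
    · exact (dvd_dnP hτ hpp).1 h3

theorem eq_of_cross {σ τ : Finset (ℕ × Bool)} (hσ : ∀ x ∈ σ, x.1.Prime)
    (hτ : ∀ x ∈ τ, x.1.Prime) (cσ : Cons σ) (cτ : Cons τ)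
    (h : upP σ * dnP τ = upP τ * dnP σ) : σ = τ :=
  Finset.Subset.antisymm (sub_of_cross hσ hτ cσ h) (sub_of_cross hτ hσ cτ h.symm)

theorem upP_le {σ : Finset (ℕ × Bool)} {Q : ℕ} (hQ1 : 1 ≤ Q) (h : ∀ x ∈ σ, x.1 ≤ Q) :
    upP σ ≤ Q ^ σ.card := by
  unfold upP
  apply Finset.prod_le_pow_card
  intro x hx
  split_ifs
  · exact h x hx
  · exact hQ1

theorem dnP_le {σ : Finset (ℕ × Bool)} {Q : ℕ} (hQ1 : 1 ≤ Q) (h : ∀ x ∈ σ, x.1 ≤ Q) :
    dnP σ ≤ Q ^ σ.card := by
  unfold dnP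
  apply Finset.prod_le_pow_card
  intro x hx
  split_ifs
  · exact hQ1
  · exact h x hx

/-- Graph with edge labels: the abstract counting statement.  `V` a finite set of integers
`≥ Z`, such that each `z ∈ V` has more than `5 ℓ` signed labels `(q, d)` with a neighbour in `V`;
then `V` has at least `3 ^ ℓ` elements. -/
theorem core_big (QQ : Finset ℕ) (Q H Z ℓ : ℕ) (hprime : ∀ q ∈ QQ, q.Prime)
    (hQ : ∀ q ∈ QQ, q ≤ Q) (hQ1 : 1 ≤ Q) (V : Finset ℕ) (hne : V.Nonempty)
    (hZ : ∀ z ∈ V, Z ≤ z)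
    (N : ℕ → Finset (ℕ × Bool)) (hN : ∀ z ∈ V, N z ⊆ QQ ×ˢ Finset.univ)
    (hNc : ∀ z ∈ V, 5 * ℓ < (N z).card)
    (hup : ∀ z ∈ V, ∀ q, (q, true) ∈ N z → ∃ z' ∈ V, |(z' : ℤ) - q * z| ≤ H)
    (hdn : ∀ z ∈ V, ∀ q, (q, false) ∈ N z → ∃ z' ∈ V, |(z : ℤ) - q * z'| ≤ H)
    (hbig : 2 * ℓ * Q ^ (2 * ℓ) * H < Z) :
    3 ^ ℓ ≤ V.card := by
  classical
  obtain ⟨z0, hz0⟩ := hne
  -- the good relation
  let Good : ℕ → Finset (ℕ × Bool) → ℕ → Prop := fun i σ z =>
    z ∈ V ∧ |(dnP σ : ℤ) * z - upP σ * z0| ≤ i * Q ^ i * H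
  let W : ℕ → Finset (Finset (ℕ × Bool)) := fun i =>
    ((QQ ×ˢ (Finset.univ : Finset Bool)).powersetCard i).filter
      (fun σ => Cons σ ∧ ∃ z, Good i σ z)
  have hW : ∀ i σ, σ ∈ W i ↔ (σ ⊆ QQ ×ˢ (Finset.univ : Finset Bool) ∧ σ.card = i) ∧
      Cons σ ∧ ∃ z, Good i σ z := by
    intro i σ
    simp only [W, Finset.mem_filter, Finset.mem_powersetCard]
  have hWQ : ∀ i σ, σ ∈ W i → ∀ x ∈ σ, x.1 ∈ QQ := by
    intro i σ hσ x hx
    have := ((hW i σ).1 hσ).1.1 hx
    exact (Finset.mem_product.1 this).1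
  -- growth
  have hgrow : ∀ i, i < ℓ → 3 * (W i).card ≤ (W (i + 1)).card := by
    intro i hi
    have hdc := Finset.card_mul_le_card_mul (s := W i) (t := W (i + 1))
      (fun σ τ => σ ⊆ τ) (m := 3 * (i + 1)) (n := i + 1) ?_ ?_
    · have h1 : (W i).card * (3 * (i + 1)) = (3 * (W i).card) * (i + 1) := by ring
      rw [h1] at hdc
      exact Nat.le_of_mul_le_mul_right hdc (Nat.succ_pos i)
    · intro σ hσ
      obtain ⟨⟨hσs, hσc⟩, hσcons, z, hzV, hzb⟩ := (hW i σ).1 hσ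
      -- new labels
      let Nw : Finset (ℕ × Bool) := (N z) \ ((σ.image Prod.fst) ×ˢ Finset.univ)
      have hNw : 3 * (i + 1) ≤ Nw.card := by
        have h1 : (N z).card - ((σ.image Prod.fst) ×ˢ (Finset.univ : Finset Bool)).card ≤
            Nw.card := Finset.le_card_sdiff _ _
        have h2 : ((σ.image Prod.fst) ×ˢ (Finset.univ : Finset Bool)).card ≤ 2 * i := by
          rw [Finset.card_product, Finset.card_univ, Fintype.card_bool, mul_comm]
          have := Finset.card_image_le (s := σ) (f := Prod.fst)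
          omega
        have h3 := hNc z hzV
        omega
      refine le_trans hNw ?_
      apply Finset.card_le_card_of_injOn (fun p => insert p σ)
      · intro p hp
        rw [Finset.mem_coe, Finset.mem_sdiff] at hp
        obtain ⟨hpN, hpn⟩ := hp
        have hpfst : p.1 ∉ σ.image Prod.fst := by
          intro h
          exact hpn (Finset.mem_product.2 ⟨h, Finset.mem_univ _⟩)
        have hpσ : p ∉ σ := fun h => hpfst (Finset.mem_image_of_mem _ h)
        have hpQ : p ∈ QQ ×ˢ (Finset.univ : Finset Bool) := hN z hzV hpN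
        have hpQ1 : p.1 ∈ QQ := (Finset.mem_product.1 hpQ).1
        rw [Finset.mem_coe, Finset.mem_bipartiteAbove]
        refine ⟨(hW _ _).2 ⟨⟨?_, ?_⟩, ?_, ?_⟩, Finset.subset_insert _ _⟩
        · exact Finset.insert_subset hpQ hσs
        · rw [Finset.card_insert_of_notMem hpσ, hσc]
        · intro r hr
          rw [Finset.mem_insert, Finset.mem_insert] at hr
          obtain ⟨h1, h2⟩ := hr
          rcases h1 with h1 | h1
          · rcases h2 with h2 | h2
            · rw [← h1] at h2; simp at h2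
            · apply hpfst
              rw [← h1]
              exact Finset.mem_image.2 ⟨(r, false), h2, rfl⟩
          · rcases h2 with h2 | h2
            · apply hpfst
              rw [← h2]
              exact Finset.mem_image.2 ⟨(r, true), h1, rfl⟩
            · exact hσcons r ⟨h1, h2⟩
        · -- the new vertex
          have hb : dnP σ ≤ Q ^ i := by
            rw [← hσc]
            exact dnP_le hQ1 (fun x hx => hQ _ (hWQ i σ hσ x hx))
          have hbz : (dnP σ : ℤ) ≤ (Q : ℤ) ^ i := by exact_mod_cast hb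
          have hb0 : (0 : ℤ) ≤ (dnP σ : ℤ) := Int.natCast_nonneg _
          have hH0 : (0 : ℤ) ≤ (H : ℤ) := Int.natCast_nonneg _
          have hQ1z : (1 : ℤ) ≤ (Q : ℤ) := by exact_mod_cast hQ1
          have hQi : (0 : ℤ) ≤ (Q : ℤ) ^ i := by positivity
          have hQi1 : (Q : ℤ) ^ i ≤ (Q : ℤ) ^ (i + 1) := pow_le_pow_right₀ hQ1z (Nat.le_succ i)
          obtain ⟨q, d⟩ := p
          have hqQ : (q : ℤ) ≤ (Q : ℤ) := by exact_mod_cast hQ _ hpQ1
          have hq0 : (0 : ℤ) ≤ (q : ℤ) := Int.natCast_nonneg _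
          cases d with
          | true =>
            obtain ⟨z', hz'V, hz'⟩ := hup z hzV q hpN
            refine ⟨z', hz'V, ?_⟩
            rw [upP_insert hpσ, dnP_insert hpσ]
            simp only [if_true, one_mul, Nat.cast_mul]
            have e1 : (dnP σ : ℤ) * z' - (q : ℤ) * (upP σ) * z0 =
                (dnP σ : ℤ) * ((z' : ℤ) - q * z) + q * ((dnP σ : ℤ) * z - upP σ * z0) := by ring
            rw [e1]
            refine le_trans (abs_add_le _ _) ?_
            rw [abs_mul, abs_mul, abs_of_nonneg hb0, abs_of_nonneg hq0]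
            have t1 : (dnP σ : ℤ) * |(z' : ℤ) - q * z| ≤ (Q : ℤ) ^ (i + 1) * H := by
              apply mul_le_mul (le_trans hbz hQi1) hz' (abs_nonneg _) (by positivity)
            have t2 : (q : ℤ) * |(dnP σ : ℤ) * z - upP σ * z0| ≤ Q * (i * Q ^ i * H) := by
              apply mul_le_mul hqQ hzb (abs_nonneg _) (by positivity)
            have t3 : ((i + 1 : ℕ) : ℤ) * (Q : ℤ) ^ (i + 1) * H =
                (Q : ℤ) ^ (i + 1) * H + Q * (i * Q ^ i * H) := by
              push_cast; ring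
            rw [t3]
            exact add_le_add t1 t2
          | false =>
            obtain ⟨z', hz'V, hz'⟩ := hdn z hzV q hpN
            refine ⟨z', hz'V, ?_⟩
            rw [upP_insert hpσ, dnP_insert hpσ]
            simp only [Bool.false_eq_true, if_false, one_mul, Nat.cast_mul]
            have e1 : (q : ℤ) * (dnP σ : ℤ) * z' - (upP σ) * z0 =
                -((dnP σ : ℤ) * ((z : ℤ) - q * z')) + ((dnP σ : ℤ) * z - upP σ * z0) := by ring
            rw [e1]
            refine le_trans (abs_add_le _ _) ?_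
            rw [abs_neg, abs_mul, abs_of_nonneg hb0]
            have t1 : (dnP σ : ℤ) * |(z : ℤ) - q * z'| ≤ (Q : ℤ) ^ (i + 1) * H := by
              apply mul_le_mul (le_trans hbz hQi1) hz' (abs_nonneg _) (by positivity)
            have t2 : |(dnP σ : ℤ) * z - upP σ * z0| ≤ Q * (i * Q ^ i * H) := by
              refine le_trans hzb ?_
              have : (0 : ℤ) ≤ i * Q ^ i * H := by positivity
              nlinarith
            have t3 : ((i + 1 : ℕ) : ℤ) * (Q : ℤ) ^ (i + 1) * H =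
                (Q : ℤ) ^ (i + 1) * H + Q * (i * Q ^ i * H) := by
              push_cast; ring
            rw [t3]
            exact add_le_add t1 t2
      · intro p hp p' hp' hpp'
        rw [Finset.mem_coe, Finset.mem_sdiff] at hp hp'
        have hpσ : p ∉ σ := fun h =>
          hp.2 (Finset.mem_product.2 ⟨Finset.mem_image_of_mem _ h, Finset.mem_univ _⟩)
        have hmem : p ∈ insert p' σ := by
          have : p ∈ insert p σ := Finset.mem_insert_self _ _
          simp only at hpp'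
          rw [hpp'] at this
          exact this
        rcases Finset.mem_insert.1 hmem with h | h
        · exact h
        · exact absurd h hpσ
    · intro τ hτ
      obtain ⟨⟨_, hτc⟩, _⟩ := (hW (i + 1) τ).1 hτ
      have hsub : (W i).bipartiteBelow (fun σ τ => σ ⊆ τ) τ ⊆ τ.powersetCard i := by
        intro σ hσ
        rw [Finset.mem_bipartiteBelow] at hσ
        rw [Finset.mem_powersetCard]
        exact ⟨hσ.2, ((hW i σ).1 hσ.1).1.2⟩
      refine le_trans (Finset.card_le_card hsub) ?_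
      rw [Finset.card_powersetCard, hτc]
      simp
  -- start
  have hW0 : 1 ≤ (W 0).card := by
    rw [Nat.one_le_iff_ne_zero, Finset.card_ne_zero]
    refine ⟨∅, (hW 0 ∅).2 ⟨⟨Finset.empty_subset _, rfl⟩, ?_, z0, hz0, ?_⟩⟩
    · intro p hp; simp at hp
    · simp [dnP, upP]
  have hWi : ∀ i, i ≤ ℓ → 3 ^ i ≤ (W i).card := by
    intro i
    induction i with
    | zero => intro _; simpa using hW0
    | succ i ih =>
      intro hi
      have h1 := ih (by omega)
      have h2 := hgrow i (by omega)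
      calc 3 ^ (i + 1) = 3 * 3 ^ i := by ring
        _ ≤ 3 * (W i).card := Nat.mul_le_mul_left _ h1
        _ ≤ _ := h2
  refine le_trans (hWi ℓ le_rfl) ?_
  -- injection into V
  have hex : ∀ σ ∈ W ℓ, ∃ z, Good ℓ σ z := fun σ hσ => ((hW ℓ σ).1 hσ).2.2
  choose! φ hφ using hex
  apply Finset.card_le_card_of_injOn φ
  · intro σ hσ
    exact (hφ σ hσ).1
  · intro σ hσ τ hτ hst
    rw [Finset.mem_coe] at hσ hτ
    obtain ⟨hzV, h1⟩ := hφ σ hσ
    obtain ⟨_, h2⟩ := hφ τ hτ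
    rw [← hst] at h2
    have hpσ : ∀ x ∈ σ, x.1.Prime := fun x hx => hprime _ (hWQ ℓ σ hσ x hx)
    have hpτ : ∀ x ∈ τ, x.1.Prime := fun x hx => hprime _ (hWQ ℓ τ hτ x hx)
    have cσ : Cons σ := ((hW ℓ σ).1 hσ).2.1
    have cτ : Cons τ := ((hW ℓ τ).1 hτ).2.1
    have hσc : σ.card = ℓ := ((hW ℓ σ).1 hσ).1.2
    have hτc : τ.card = ℓ := ((hW ℓ τ).1 hτ).1.2
    have hdσ : dnP σ ≤ Q ^ ℓ := by
      have := dnP_le hQ1 (fun x hx => hQ _ (hWQ ℓ σ hσ x hx))
      rwa [hσc] at this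
    have hdτ : dnP τ ≤ Q ^ ℓ := by
      have := dnP_le hQ1 (fun x hx => hQ _ (hWQ ℓ τ hτ x hx))
      rwa [hτc] at this
    apply eq_of_cross hpσ hpτ cσ cτ
    -- the cross relation
    have hz0Z : (Z : ℤ) ≤ z0 := by exact_mod_cast hZ z0 hz0
    have hcr : |((upP σ : ℤ) * dnP τ - upP τ * dnP σ)| * z0 ≤ 2 * ℓ * Q ^ (2 * ℓ) * H := by
      have e : ((upP σ : ℤ) * dnP τ - upP τ * dnP σ) * z0 =
          (dnP σ : ℤ) * ((dnP τ : ℤ) * φ σ - upP τ * z0) -
          (dnP τ : ℤ) * ((dnP σ : ℤ) * φ σ - upP σ * z0) := by ring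
      have hz0nn : (0 : ℤ) ≤ (z0 : ℤ) := Int.natCast_nonneg _
      rw [show |((upP σ : ℤ) * dnP τ - upP τ * dnP σ)| * (z0 : ℤ) =
        |((upP σ : ℤ) * dnP τ - upP τ * dnP σ) * z0| by
          rw [abs_mul, abs_of_nonneg hz0nn]]
      rw [e]
      refine le_trans (abs_sub _ _) ?_
      rw [abs_mul, abs_mul, abs_of_nonneg (Int.natCast_nonneg (dnP σ)),
        abs_of_nonneg (Int.natCast_nonneg (dnP τ))]
      have a1 : (dnP σ : ℤ) * |(dnP τ : ℤ) * φ σ - upP τ * z0| ≤ Q ^ ℓ * (ℓ * Q ^ ℓ * H) := by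
        apply mul_le_mul (by exact_mod_cast hdσ) h2 (abs_nonneg _) (by positivity)
      have a2 : (dnP τ : ℤ) * |(dnP σ : ℤ) * φ σ - upP σ * z0| ≤ Q ^ ℓ * (ℓ * Q ^ ℓ * H) := by
        apply mul_le_mul (by exact_mod_cast hdτ) h1 (abs_nonneg _) (by positivity)
      have a3 : (2 : ℤ) * ℓ * Q ^ (2 * ℓ) * H =
          Q ^ ℓ * (ℓ * Q ^ ℓ * H) + Q ^ ℓ * (ℓ * Q ^ ℓ * H) := by
        rw [two_mul ℓ, pow_add]; ring
      rw [a3]
      exact add_le_add a1 a2
    have hbigz : (2 : ℤ) * ℓ * Q ^ (2 * ℓ) * H < Z := by exact_mod_cast hbig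
    by_contra hne
    have hne' : ((upP σ : ℤ) * dnP τ - upP τ * dnP σ) ≠ 0 := by
      intro h
      apply hne
      have : ((upP σ : ℤ) * dnP τ) = upP τ * dnP σ := by linarith
      exact_mod_cast this
    have h1le : (1 : ℤ) ≤ |((upP σ : ℤ) * dnP τ - upP τ * dnP σ)| := Int.one_le_abs hne'
    have : (z0 : ℤ) ≤ |((upP σ : ℤ) * dnP τ - upP τ * dnP σ)| * z0 := by
      nlinarith [Int.natCast_nonneg z0]
    linarith

theorem walk_bound (QQ : Finset ℕ) (Q K H Z ℓ : ℕ) (hprime : ∀ q ∈ QQ, q.Prime)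
    (hQ : ∀ q ∈ QQ, q ≤ Q)
    (Λ : Finset ℕ) (A : ℕ → Finset ℕ) (δ : ℕ → ℕ → ℕ → ℕ)
    (hδ : ∀ q ∈ QQ, ∀ u ∈ A q, ∀ k ≤ K,
      δ q u k ∈ Λ ∧ u < q ^ k * δ q u k ∧ q ^ k * δ q u k ≤ u + H)
    (hinj : ∀ q ∈ QQ, ∀ u ∈ A q, ∀ u' ∈ A q, ∀ k ≤ K, ∀ k' ≤ K,
      δ q u k = δ q u' k' → u = u' ∧ k = k')
    (hA : ∀ q ∈ QQ, ∀ u ∈ A q, Q ^ K * Z ≤ u) (hbig : 2 * ℓ * Q ^ (2 * ℓ) * H < Z)
    (hcard : Λ.card < 3 ^ ℓ) (hℓ : 1 ≤ ℓ) :
    ∑ q ∈ QQ, (A q).card * K ≤ 5 * ℓ * Λ.card := by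
  classical
  by_contra hcon
  push Not at hcon
  -- the edges
  let E : Finset (Σ _ : ℕ, ℕ × ℕ) := QQ.sigma (fun q => A q ×ˢ Finset.range K)
  have hE : E.card = ∑ q ∈ QQ, (A q).card * K := by
    simp only [E, Finset.card_sigma, Finset.card_product, Finset.card_range]
  have hEm : ∀ e : (Σ _ : ℕ, ℕ × ℕ), e ∈ E ↔ e.1 ∈ QQ ∧ e.2.1 ∈ A e.1 ∧ e.2.2 < K := by
    rintro ⟨q, u, k⟩
    simp [E, Finset.mem_sigma, Finset.mem_product]
  -- QQ nonempty gives Q ≥ 1
  have hQne : QQ.Nonempty := by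
    rw [Finset.nonempty_iff_ne_empty]
    rintro rfl
    simp at hcon
  have hQ1 : 1 ≤ Q := by
    obtain ⟨q, hq⟩ := hQne
    have h1 := (hprime q hq).one_lt
    have h2 := hQ q hq
    omega
  let f : (Σ _ : ℕ, ℕ × ℕ) → ℕ := fun e => δ e.1 e.2.1 (e.2.2 + 1)
  let g : (Σ _ : ℕ, ℕ × ℕ) → ℕ := fun e => δ e.1 e.2.1 e.2.2
  have hfull : (E.filter (fun e => f e ∈ Λ ∧ g e ∈ Λ)) = E := by
    apply Finset.filter_true_of_mem
    intro e he
    obtain ⟨h1, h2, h3⟩ := (hEm e).1 he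
    exact ⟨(hδ _ h1 _ h2 _ (by omega)).1, (hδ _ h1 _ h2 _ (by omega)).1⟩
  have hlt : (5 * ℓ) * Λ.card < (E.filter (fun e => f e ∈ Λ ∧ g e ∈ Λ)).card := by
    rw [hfull, hE]; exact hcon
  obtain ⟨V, hVΛ, hVne, hdeg⟩ := exists_core E f g (5 * ℓ) _ Λ rfl hlt
  -- labels
  let lab : ℕ → (Σ _ : ℕ, ℕ × ℕ) → ℕ × Bool := fun v e => (e.1, decide (f e = v))
  let N : ℕ → Finset (ℕ × Bool) := fun v =>
    (E.filter (fun e => (f e ∈ V ∧ g e ∈ V) ∧ (f e = v ∨ g e = v))).image (lab v)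
  have hNc : ∀ z ∈ V, 5 * ℓ < (N z).card := by
    intro v hv
    refine lt_of_lt_of_le (hdeg v hv) ?_
    simp only [N]
    rw [Finset.card_image_of_injOn]
    intro e he e' he' hee
    rw [Finset.mem_coe, Finset.mem_filter] at he he'
    obtain ⟨heE, _, hev⟩ := he
    obtain ⟨heE', _, hev'⟩ := he'
    obtain ⟨q, u, k⟩ := e
    obtain ⟨q', u', k'⟩ := e'
    obtain ⟨hq, hu, hk⟩ := (hEm _).1 heE
    obtain ⟨hq', hu', hk'⟩ := (hEm _).1 heE'
    simp only at hq hu hk hq' hu' hk'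
    simp only [lab, Prod.mk.injEq, decide_eq_decide] at hee
    obtain ⟨hqq, hff⟩ := hee
    subst hqq
    simp only [f, g] at hff hev hev'
    by_cases h1 : δ q u (k + 1) = v
    · have h2 := hff.1 h1
      have := hinj q hq u hu u' hu' (k + 1) (by omega) (k' + 1) (by omega) (h1.trans h2.symm)
      obtain ⟨a1, a2⟩ := this
      subst a1
      have : k = k' := by omega
      subst this
      rfl
    · have h2 : ¬ δ q u' (k' + 1) = v := fun h => h1 (hff.2 h)
      have h3 : δ q u k = v := by tauto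
      have h4 : δ q u' k' = v := by tauto
      have := hinj q hq u hu u' hu' k (by omega) k' (by omega) (h3.trans h4.symm)
      obtain ⟨a1, a2⟩ := this
      subst a1
      subst a2
      rfl
  have hNs : ∀ z ∈ V, N z ⊆ QQ ×ˢ (Finset.univ : Finset Bool) := by
    intro z hz p hp
    simp only [N, Finset.mem_image, Finset.mem_filter] at hp
    obtain ⟨e, ⟨heE, _⟩, rfl⟩ := hp
    exact Finset.mem_product.2 ⟨((hEm e).1 heE).1, Finset.mem_univ _⟩
  -- edge inequality
  have hedge : ∀ e ∈ E, |((g e : ℕ) : ℤ) - e.1 * (f e : ℕ)| ≤ H := by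
    rintro ⟨q, u, k⟩ he
    obtain ⟨hq, hu, hk⟩ := (hEm _).1 he
    simp only at hq hu hk
    simp only [f, g]
    obtain ⟨_, h1, h2⟩ := hδ q hq u hu k (by omega)
    obtain ⟨_, h3, h4⟩ := hδ q hq u hu (k + 1) (by omega)
    have hqpos : 0 < q ^ k := Nat.pow_pos (hprime q hq).pos
    have hq1 : (1 : ℤ) ≤ (q : ℤ) ^ k := by exact_mod_cast hqpos
    have h1' : (u : ℤ) < (q : ℤ) ^ k * δ q u k := by exact_mod_cast h1
    have h2' : (q : ℤ) ^ k * δ q u k ≤ (u : ℤ) + H := by exact_mod_cast h2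
    have h3' : (u : ℤ) < (q : ℤ) ^ (k + 1) * δ q u (k + 1) := by exact_mod_cast h3
    have h4' : (q : ℤ) ^ (k + 1) * δ q u (k + 1) ≤ (u : ℤ) + H := by exact_mod_cast h4
    have hab : |(q : ℤ) ^ k * ((δ q u k : ℤ) - q * δ q u (k + 1))| ≤ H := by
      rw [abs_le]
      rw [pow_succ] at h3' h4'
      constructor <;> nlinarith
    rw [abs_mul, abs_of_pos (by linarith : (0 : ℤ) < (q : ℤ) ^ k)] at hab
    have := abs_nonneg ((δ q u k : ℤ) - q * δ q u (k + 1))
    nlinarith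
  have hZ : ∀ z ∈ V, Z ≤ z := by
    intro z hz
    -- z has an incident edge
    have hpos : 0 < (E.filter (fun e => (f e ∈ V ∧ g e ∈ V) ∧ (f e = z ∨ g e = z))).card := by
      have := hdeg z hz; omega
    obtain ⟨e, he⟩ := Finset.card_pos.1 hpos
    rw [Finset.mem_filter] at he
    obtain ⟨heE, _, hez⟩ := he
    obtain ⟨q, u, k⟩ := e
    obtain ⟨hq, hu, hk⟩ := (hEm _).1 heE
    simp only at hq hu hk
    simp only [f, g] at hez
    have key : ∀ j ≤ K, Z ≤ δ q u j := by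
      intro j hj
      obtain ⟨_, h1, _⟩ := hδ q hq u hu j hj
      have h2 := hA q hq u hu
      have hqj : q ^ j ≤ Q ^ K := by
        calc q ^ j ≤ Q ^ j := Nat.pow_le_pow_left (hQ q hq) j
          _ ≤ Q ^ K := Nat.pow_le_pow_right hQ1 hj
      by_contra hlt
      push Not at hlt
      have h3 : q ^ j * δ q u j ≤ Q ^ K * Z := Nat.mul_le_mul hqj hlt.le
      omega
    rcases hez with h | h
    · rw [← h]; exact key _ (by omega)
    · rw [← h]; exact key _ (by omega)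
  have hcb := core_big QQ Q H Z ℓ hprime hQ hQ1 V hVne hZ N hNs hNc ?_ ?_ hbig
  · have := Finset.card_le_card hVΛ
    omega
  · intro z hz q hq
    simp only [N, Finset.mem_image, Finset.mem_filter, lab, Prod.mk.injEq,
      decide_eq_true_eq] at hq
    obtain ⟨e, ⟨heE, ⟨_, hgV⟩, _⟩, he1, he2⟩ := hq
    refine ⟨g e, hgV, ?_⟩
    have := hedge e heE
    rw [he2, he1] at this
    exact this
  · intro z hz q hq
    simp only [N, Finset.mem_image, Finset.mem_filter, lab, Prod.mk.injEq,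
      decide_eq_false_iff_not] at hq
    obtain ⟨e, ⟨heE, ⟨hfV, _⟩, hor⟩, he1, he2⟩ := hq
    have hge : g e = z := by tauto
    refine ⟨f e, hfV, ?_⟩
    have := hedge e heE
    rw [hge, he1] at this
    exact this

end H393R2.DE
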